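import Pool.Agent.H86.FRW.W4A
import Pool.Agent.H48.KP.Taylor

/-!
MP_6a7a6f_gt: the wheels with four spokes, `S < 1.9068 π` (the true constant is `1.90674 π`).

First region: all phases are at least `π / 2 - s`, `s = S / 4`. The dual inequality with
`f_j = π / 2 + x_j`, `g_j = π / 2 - x_j`, `x_j = π / 4 + (ψ_j - s) / 2` is linear in `tan x_j`.

Second region: one phase `ψ_0 < π / 2 - s`: `f_0 = π / 2 - η`, `g_0 = π / 2 + ξ`,
`f_j = π / 2 + Y_j + τ`, `g_j = π / 2 - Y_j`, `Y_j = T + (ψ_j - S' / 3) / 2`, again linear in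
`tan Y_j`; here `S' = ψ_1 + ψ_2 + ψ_3`, `T = (π + ξ) / 3`, `τ = (η - ξ) / 3`.
-/

namespace Pool.Agent.H86.FRW

open Pool.Agent.H58.FL Pool.Agent.H58.FN Pool.Agent.H59.CPT

noncomputable section

/-- W4R: the wheels with four spokes, the refined constant. -/
def T_W4R : Prop := ∀ (E : Type) [NormedAddCommGroup E] [InnerProductSpace ℂ E] (h a b c d : E),
  ‖h‖ = 1 → ‖a‖ = 1 → ‖b‖ = 1 → ‖c‖ = 1 → ‖d‖ = 1 → Ad3 h a → Ad3 h b → Ad3 h c → Ad3 h d →
  Ad3 a b → Ad3 b c → Ad3 c d → Ad3 d a →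
  ar h a b + ar h b c + ar h c d + ar h d a < 4767 / 2500 * Real.pi

/-! ## tangent lines of the tangent -/

theorem tan_line {a x : ℝ} (ha : 0 ≤ a) (ha' : a < Real.pi / 2) (hx : 0 ≤ x)
    (hx' : x < Real.pi / 2) : Real.tan a + (x - a) / Real.cos a ^ 2 ≤ Real.tan x := by
  have hp := Real.pi_pos
  have hca : 0 < Real.cos a := Real.cos_pos_of_mem_Ioo ⟨by linarith, ha'⟩
  have hcx : 0 < Real.cos x := Real.cos_pos_of_mem_Ioo ⟨by linarith, hx'⟩
  have hsa : 0 ≤ Real.sin a := Real.sin_nonneg_of_nonneg_of_le_pi ha (by linarith)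
  -- the main inequality
  have key : (x - a) * Real.cos x ≤ Real.sin (x - a) * Real.cos a := by
    rcases le_or_gt a x with h | h
    · obtain ⟨d, hd⟩ : ∃ d : ℝ, d = x - a := ⟨_, rfl⟩
      have hd0 : 0 ≤ d := by linarith
      rw [← hd, show x = a + d by linarith, Real.cos_add]
      have h1 : 0 < Real.cos d := Real.cos_pos_of_mem_Ioo ⟨by linarith, by linarith⟩
      have h2 : 0 ≤ Real.sin d := Real.sin_nonneg_of_nonneg_of_le_pi hd0 (by linarith)
      have h3 : d * Real.cos d ≤ Real.sin d := by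
        have h4 := Real.le_tan hd0 (by linarith : d < Real.pi / 2)
        rwa [Real.tan_eq_sin_div_cos, le_div_iff₀ h1] at h4
      have h4 := mul_le_mul_of_nonneg_right h3 hca.le
      have h5 : 0 ≤ d * (Real.sin a * Real.sin d) := by positivity
      linarith
    · obtain ⟨e, he⟩ : ∃ e : ℝ, e = a - x := ⟨_, rfl⟩
      have he0 : 0 < e := by linarith
      rw [show x - a = -e by linarith, show x = a - e by linarith, Real.sin_neg, Real.cos_sub]
      have h1 : 0 < Real.cos e := Real.cos_pos_of_mem_Ioo ⟨by linarith, by linarith⟩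
      have h2 : 0 ≤ Real.sin e := Real.sin_nonneg_of_nonneg_of_le_pi he0.le (by linarith)
      have h3 : 0 ≤ Real.sin (a - e) :=
        Real.sin_nonneg_of_nonneg_of_le_pi (by linarith) (by linarith)
      rw [Real.sin_sub] at h3
      have h4 : Real.sin e * Real.cos e ≤ e := by
        have h5 := Real.sin_le (by linarith : 0 ≤ 2 * e)
        rw [Real.sin_two_mul] at h5
        linarith
      have h6 : Real.sin e ^ 2 + Real.cos e ^ 2 = 1 := Real.sin_sq_add_cos_sq e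
      have h7 : 0 ≤ (e * (Real.cos a * Real.cos e + Real.sin a * Real.sin e) -
          Real.sin e * Real.cos a) * Real.cos e := by
        have h8 : 0 ≤ e * Real.sin e * (Real.sin a * Real.cos e - Real.cos a * Real.sin e) := by
          positivity
        have h9 : 0 ≤ Real.cos a * (e - Real.sin e * Real.cos e) :=
          mul_nonneg hca.le (by linarith)
        have h10 : (e * (Real.cos a * Real.cos e + Real.sin a * Real.sin e) -
          Real.sin e * Real.cos a) * Real.cos e =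
          e * Real.sin e * (Real.sin a * Real.cos e - Real.cos a * Real.sin e) +
          Real.cos a * (e * (Real.sin e ^ 2 + Real.cos e ^ 2) - Real.sin e * Real.cos e) := by
          ring
        rw [h10, h6]
        linarith
      have h8 := nonneg_of_mul_nonneg_left h7 h1
      linarith
  have h1 : Real.tan x - Real.tan a = Real.sin (x - a) / (Real.cos x * Real.cos a) := by
    rw [Real.tan_eq_sin_div_cos, Real.tan_eq_sin_div_cos, Real.sin_sub]
    field_simp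
  have h2 : (x - a) / Real.cos a ^ 2 ≤ Real.sin (x - a) / (Real.cos x * Real.cos a) := by
    rw [div_le_div_iff₀ (by positivity) (by positivity)]
    have := mul_le_mul_of_nonneg_right key hca.le
    nlinarith
  linarith

theorem tan3 {a x y z : ℝ} (ha : 0 ≤ a) (ha' : a < Real.pi / 2) (hx : 0 ≤ x)
    (hx' : x < Real.pi / 2) (hy : 0 ≤ y) (hy' : y < Real.pi / 2) (hz : 0 ≤ z)
    (hz' : z < Real.pi / 2) (h : x + y + z = 3 * a) :
    3 * Real.tan a ≤ Real.tan x + Real.tan y + Real.tan z := by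
  have h1 := tan_line ha ha' hx hx'
  have h2 := tan_line ha ha' hy hy'
  have h3 := tan_line ha ha' hz hz'
  have h4 : (x - a) / Real.cos a ^ 2 + (y - a) / Real.cos a ^ 2 + (z - a) / Real.cos a ^ 2 = 0 := by
    rw [← add_div, ← add_div, show x - a + (y - a) + (z - a) = 0 by linarith, zero_div]
  linarith

theorem tan4 {a x y z w : ℝ} (ha : 0 ≤ a) (ha' : a < Real.pi / 2) (hx : 0 ≤ x)
    (hx' : x < Real.pi / 2) (hy : 0 ≤ y) (hy' : y < Real.pi / 2) (hz : 0 ≤ z)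
    (hz' : z < Real.pi / 2) (hw : 0 ≤ w) (hw' : w < Real.pi / 2) (h : x + y + z + w = 4 * a) :
    4 * Real.tan a ≤ Real.tan x + Real.tan y + Real.tan z + Real.tan w := by
  have h1 := tan_line ha ha' hx hx'
  have h2 := tan_line ha ha' hy hy'
  have h3 := tan_line ha ha' hz hz'
  have h5 := tan_line ha ha' hw hw'
  have h4 : (x - a) / Real.cos a ^ 2 + (y - a) / Real.cos a ^ 2 + (z - a) / Real.cos a ^ 2 +
      (w - a) / Real.cos a ^ 2 = 0 := by
    rw [← add_div, ← add_div, ← add_div,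
      show x - a + (y - a) + (z - a) + (w - a) = 0 by linarith, zero_div]
  linarith

/-! ## edges -/

/-- an edge with a positive phase -/
theorem edgeP {r c c' ps X Y L : ℝ} (r0 : 0 ≤ r) (hr : k3 < r ^ 2) (c0 : 0 ≤ c)
    (hc : k3 < c ^ 2) (c0' : 0 ≤ c') (hc' : k3 < c' ^ 2) (hY0 : 0 ≤ Y) (hY1 : Y < Real.pi / 2)
    (hX0 : 0 ≤ X) (hX1 : X ≤ Real.pi) (h0 : 0 ≤ ps - X) (h1 : ps - X ≤ Real.pi)
    (hL : L ≤ Real.tan Y) :
    (Real.sqrt k3 * Real.sin (ps - X) + k3 * Real.sin X - (1 - k3) * Real.sin Y) / Real.cos Y +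
        L / 2 * ((c ^ 2 - k3) + (c' ^ 2 - k3)) ≤
      (r * Real.cos (ps - (Real.pi / 2 + X)) - c * c' * Real.cos (Real.pi / 2 + X) -
        Real.cos (Real.pi / 2 - Y) * (2 - c ^ 2 - c' ^ 2) / 2) / Real.sin (Real.pi / 2 - Y) := by
  have hp := Real.pi_pos
  have e1 : Real.cos (ps - (Real.pi / 2 + X)) = Real.sin (ps - X) := by
    rw [← Real.cos_sub_pi_div_two]
    congr 1
    ring
  have e2 : Real.cos (Real.pi / 2 + X) = -Real.sin X := by
    rw [add_comm, Real.cos_add_pi_div_two]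
  rw [e1, e2, Real.cos_pi_div_two_sub, Real.sin_pi_div_two_sub]
  have hcY : 0 < Real.cos Y := Real.cos_pos_of_mem_Ioo ⟨by linarith, hY1⟩
  have hsX : 0 ≤ Real.sin X := Real.sin_nonneg_of_nonneg_of_le_pi hX0 hX1
  have hsp : 0 ≤ Real.sin (ps - X) := Real.sin_nonneg_of_nonneg_of_le_pi h0 h1
  have key := edge_lb (G := Real.sin Y) r0 hr c0 hc c0' hc' hsp (by linarith : -Real.sin X ≤ 0)
  have hQ : 0 ≤ (c ^ 2 - k3) + (c' ^ 2 - k3) := by linarith
  have h2 : L / 2 * ((c ^ 2 - k3) + (c' ^ 2 - k3)) ≤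
      Real.sin Y * ((c ^ 2 - k3) + (c' ^ 2 - k3)) / 2 / Real.cos Y := by
    have h3 := mul_le_mul_of_nonneg_right hL hQ
    rw [Real.tan_eq_sin_div_cos] at h3
    calc L / 2 * ((c ^ 2 - k3) + (c' ^ 2 - k3)) = L * ((c ^ 2 - k3) + (c' ^ 2 - k3)) / 2 := by ring
      _ ≤ Real.sin Y / Real.cos Y * ((c ^ 2 - k3) + (c' ^ 2 - k3)) / 2 := by linarith
      _ = Real.sin Y * ((c ^ 2 - k3) + (c' ^ 2 - k3)) / 2 / Real.cos Y := by
        field_simp
  calc (Real.sqrt k3 * Real.sin (ps - X) + k3 * Real.sin X - (1 - k3) * Real.sin Y) / Real.cos Y +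
        L / 2 * ((c ^ 2 - k3) + (c' ^ 2 - k3))
      ≤ (Real.sqrt k3 * Real.sin (ps - X) + k3 * Real.sin X - (1 - k3) * Real.sin Y) /
        Real.cos Y + Real.sin Y * ((c ^ 2 - k3) + (c' ^ 2 - k3)) / 2 / Real.cos Y := by linarith
    _ = (Real.sqrt k3 * Real.sin (ps - X) + k3 * Real.sin X - (1 - k3) * Real.sin Y +
        Real.sin Y * ((c ^ 2 - k3) + (c' ^ 2 - k3)) / 2) / Real.cos Y := by rw [← add_div]
    _ ≤ _ := by
        rw [div_le_div_iff_of_pos_right hcY]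
        linarith

/-- the edge with a small or negative phase -/
theorem edgeN {r c c' ps η ξ : ℝ} (r0 : 0 ≤ r) (hr : k3 < r ^ 2) (h0 : 0 ≤ ps + η)
    (h1 : ps + η ≤ Real.pi) (hη0 : 0 ≤ η) (hη1 : η ≤ Real.pi) (hξ0 : 0 ≤ ξ)
    (hξ1 : ξ < Real.pi / 2) :
    (Real.sqrt k3 * Real.sin (ps + η) - k3 * Real.sin η + (1 - k3) * Real.sin ξ) / Real.cos ξ -
        (Real.sin η + Real.sin ξ) / Real.cos ξ / 2 * ((c ^ 2 - k3) + (c' ^ 2 - k3)) ≤
      (r * Real.cos (ps - (Real.pi / 2 - η)) - c * c' * Real.cos (Real.pi / 2 - η) -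
        Real.cos (Real.pi / 2 + ξ) * (2 - c ^ 2 - c' ^ 2) / 2) / Real.sin (Real.pi / 2 + ξ) := by
  have hp := Real.pi_pos
  have e1 : Real.cos (ps - (Real.pi / 2 - η)) = Real.sin (ps + η) := by
    rw [← Real.cos_sub_pi_div_two]
    congr 1
    ring
  have e2 : Real.cos (Real.pi / 2 + ξ) = -Real.sin ξ := by
    rw [add_comm, Real.cos_add_pi_div_two]
  have e3 : Real.sin (Real.pi / 2 + ξ) = Real.cos ξ := by
    rw [add_comm, Real.sin_add_pi_div_two]
  rw [e1, e2, e3, Real.cos_pi_div_two_sub]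
  have hcx : 0 < Real.cos ξ := Real.cos_pos_of_mem_Ioo ⟨by linarith, hξ1⟩
  have hsη : 0 ≤ Real.sin η := Real.sin_nonneg_of_nonneg_of_le_pi hη0 hη1
  have hsp : 0 ≤ Real.sin (ps + η) := Real.sin_nonneg_of_nonneg_of_le_pi h0 h1
  have h2 : Real.sqrt k3 ≤ r := Real.sqrt_le_iff.2 ⟨r0, hr.le⟩
  have h3 := mul_le_mul_of_nonneg_right h2 hsp
  have h4 : c * c' * Real.sin η ≤ (c ^ 2 + c' ^ 2) / 2 * Real.sin η :=
    mul_le_mul_of_nonneg_right (by nlinarith [sq_nonneg (c - c')]) hsη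
  have h5 : (Real.sin η + Real.sin ξ) / Real.cos ξ / 2 * ((c ^ 2 - k3) + (c' ^ 2 - k3)) =
      ((Real.sin η + Real.sin ξ) / 2 * ((c ^ 2 - k3) + (c' ^ 2 - k3))) / Real.cos ξ := by
    ring
  rw [h5, ← sub_div, div_le_div_iff_of_pos_right hcx]
  linarith

/-- the edges with positive phases are linear in the tangent -/
theorem lin_tan {Y τ q : ℝ} (hY0 : 0 ≤ Y) (hY1 : Y < Real.pi / 2) :
    (Real.sqrt k3 * Real.sin (Y - q) + k3 * Real.sin (Y + τ) - (1 - k3) * Real.sin Y) /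
      Real.cos Y = k3 * Real.sin τ - Real.sqrt k3 * Real.sin q +
      (Real.sqrt k3 * Real.cos q + k3 * Real.cos τ - (1 - k3)) * Real.tan Y := by
  have hcY : 0 < Real.cos Y :=
    Real.cos_pos_of_mem_Ioo ⟨by linarith [Real.pi_pos], hY1⟩
  rw [Real.tan_eq_sin_div_cos, Real.sin_sub, Real.sin_add]
  field_simp
  ring

section wh2

variable {E : Type} [NormedAddCommGroup E] [InnerProductSpace ℂ E]

/-- the second region, general form -/
theorem reg2G (h a b c d : E) (hh : ‖h‖ = 1) (ha : ‖a‖ = 1) (hb : ‖b‖ = 1)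
    (hc : ‖c‖ = 1) (hd : ‖d‖ = 1) (ja : Ad3 h a) (jb : Ad3 h b) (jc : Ad3 h c) (jd : Ad3 h d)
    (jab : Ad3 a b) (jbc : Ad3 b c) (jcd : Ad3 c d) (jda : Ad3 d a) (η ξ S' : ℝ)
    (hS' : S' = ar h b c + ar h c d + ar h d a)
    (h0 : 0 ≤ ar h a b + η) (h1 : ar h a b + η ≤ Real.pi) (hη0 : 0 ≤ η) (hη1 : η ≤ Real.pi)
    (hξ0 : 0 ≤ ξ) (hξ1 : ξ < Real.pi / 2)
    (hC : 0 ≤ Real.sqrt k3 * Real.cos (2 * ((Real.pi + ξ) / 3) - S' / 3 + (η - ξ) / 3) +
      k3 * Real.cos ((η - ξ) / 3) - (1 - k3))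
    (hY : ∀ ps, ps = ar h b c ∨ ps = ar h c d ∨ ps = ar h d a →
      0 ≤ (Real.pi + ξ) / 3 + (ps - S' / 3) / 2 ∧
      (Real.pi + ξ) / 3 + (ps - S' / 3) / 2 < Real.pi / 2 ∧
      0 ≤ (Real.pi + ξ) / 3 + (ps - S' / 3) / 2 + (η - ξ) / 3 ∧
      (Real.pi + ξ) / 3 + (ps - S' / 3) / 2 + (η - ξ) / 3 ≤ Real.pi ∧
      0 ≤ ps - ((Real.pi + ξ) / 3 + (ps - S' / 3) / 2 + (η - ξ) / 3) ∧
      ps - ((Real.pi + ξ) / 3 + (ps - S' / 3) / 2 + (η - ξ) / 3) ≤ Real.pi ∧
      (Real.sin η + Real.sin ξ) / Real.cos ξ ≤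
        Real.tan ((Real.pi + ξ) / 3 + (ps - S' / 3) / 2)) :
    3 * (k3 * Real.sin ((Real.pi + η) / 3) + Real.sqrt k3 * Real.sin ((S' - Real.pi - η) / 3) -
      (1 - k3) * Real.sin ((Real.pi + ξ) / 3)) / Real.cos ((Real.pi + ξ) / 3) +
      (Real.sqrt k3 * Real.sin (ar h a b + η) - k3 * Real.sin η + (1 - k3) * Real.sin ξ) /
        Real.cos ξ ≤ 0 := by
  have hp := Real.pi_pos
  obtain ⟨T, hT⟩ : ∃ T : ℝ, T = (Real.pi + ξ) / 3 := ⟨_, rfl⟩
  obtain ⟨τ, hτ⟩ : ∃ τ : ℝ, τ = (η - ξ) / 3 := ⟨_, rfl⟩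
  obtain ⟨q, hq⟩ : ∃ q : ℝ, q = 2 * T - S' / 3 + τ := ⟨_, rfl⟩
  obtain ⟨L, hL⟩ : ∃ L : ℝ, L = (Real.sin η + Real.sin ξ) / Real.cos ξ := ⟨_, rfl⟩
  rw [← hT, ← hτ, ← hq] at hC
  rw [← hL, ← hT, ← hτ] at hY
  obtain ⟨A1, A2, A3, A4, A5, A6, A7⟩ := hY _ (Or.inl rfl)
  obtain ⟨B1, B2, B3, B4, B5, B6, B7⟩ := hY _ (Or.inr (Or.inl rfl))
  obtain ⟨C1, C2, C3, C4, C5, C6, C7⟩ := hY _ (Or.inr (Or.inr rfl))
  obtain ⟨y1, hy1⟩ : ∃ y : ℝ, y = T + (ar h b c - S' / 3) / 2 := ⟨_, rfl⟩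
  obtain ⟨y2, hy2⟩ : ∃ y : ℝ, y = T + (ar h c d - S' / 3) / 2 := ⟨_, rfl⟩
  obtain ⟨y3, hy3⟩ : ∃ y : ℝ, y = T + (ar h d a - S' / 3) / 2 := ⟨_, rfl⟩
  rw [← hy1] at A1 A2 A3 A4 A5 A6 A7
  rw [← hy2] at B1 B2 B3 B4 B5 B6 B7
  rw [← hy3] at C1 C2 C3 C4 C5 C6 C7
  have hT0 : 0 ≤ T := by
    rw [hT]
    positivity
  have hT1 : T < Real.pi / 2 := by
    rw [hT]
    linarith
  have hysum : y1 + y2 + y3 = 3 * T := by
    rw [hy1, hy2, hy3, hS']
    ring
  have e1 := edgeP (norm_nonneg _) jbc (norm_nonneg _) jb (norm_nonneg _) jc A1 A2 A3 A4 A5 A6 A7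
  have e2 := edgeP (norm_nonneg _) jcd (norm_nonneg _) jc (norm_nonneg _) jd B1 B2 B3 B4 B5 B6 B7
  have e3 := edgeP (norm_nonneg _) jda (norm_nonneg _) jd (norm_nonneg _) ja C1 C2 C3 C4 C5 C6 C7
  have e0 := edgeN (c := ‖inner ℂ h a‖) (c' := ‖inner ℂ h b‖) (norm_nonneg _) jab h0 h1 hη0 hη1
    hξ0 hξ1
  rw [← hL] at e0
  have f1 : ar h b c - (y1 + τ) = y1 - q := by
    rw [hq, hy1]
    ring
  have f2 : ar h c d - (y2 + τ) = y2 - q := by
    rw [hq, hy2]
    ring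
  have f3 : ar h d a - (y3 + τ) = y3 - q := by
    rw [hq, hy3]
    ring
  have l1 := lin_tan (τ := τ) (q := q) A1 A2
  have l2 := lin_tan (τ := τ) (q := q) B1 B2
  have l3 := lin_tan (τ := τ) (q := q) C1 C2
  have l4 := lin_tan (τ := τ) (q := q) hT0 hT1
  have key := wheel4 h a b c d hh ha hb hc hd (ne_of_Ad3 ja) (ne_of_Ad3 jb) (ne_of_Ad3 jc)
    (ne_of_Ad3 jd) (Real.pi / 2 - η) (Real.pi / 2 + (y1 + τ)) (Real.pi / 2 + (y2 + τ))
    (Real.pi / 2 + (y3 + τ)) (Real.pi / 2 + ξ) (Real.pi / 2 - y1) (Real.pi / 2 - y2)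
    (Real.pi / 2 - y3) (by linarith) (by linarith) (by linarith) (by linarith) (by linarith)
    (by linarith)
  have ht := tan3 hT0 hT1 A1 A2 B1 B2 C1 C2 hysum
  have ht2 := mul_le_mul_of_nonneg_left ht hC
  rw [f1, l1] at e1
  rw [f2, l2] at e2
  rw [f3, l3] at e3
  have g1 : (S' - Real.pi - η) / 3 = T - q := by
    rw [hq, hT, hτ]
    ring
  have g2 : (Real.pi + η) / 3 = T + τ := by
    rw [hT, hτ]
    ring
  rw [← hT, g1, g2]
  have hL0 : 0 ≤ L := by
    rw [hL]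
    have h2 : 0 < Real.cos ξ := Real.cos_pos_of_mem_Ioo ⟨by linarith, hξ1⟩
    have h3 : 0 ≤ Real.sin η := Real.sin_nonneg_of_nonneg_of_le_pi hη0 hη1
    have h4 : 0 ≤ Real.sin ξ := Real.sin_nonneg_of_nonneg_of_le_pi hξ0 (by linarith)
    positivity
  unfold Ad3 at jc jd
  have k1 : 0 ≤ L * (‖inner ℂ h c‖ ^ 2 - k3) := mul_nonneg hL0 (by linarith)
  have k2 : 0 ≤ L * (‖inner ℂ h d‖ ^ 2 - k3) := mul_nonneg hL0 (by linarith)
  have l5 : 3 * (k3 * Real.sin (T + τ) + Real.sqrt k3 * Real.sin (T - q) -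
      (1 - k3) * Real.sin T) / Real.cos T = 3 * (k3 * Real.sin τ - Real.sqrt k3 * Real.sin q +
      (Real.sqrt k3 * Real.cos q + k3 * Real.cos τ - (1 - k3)) * Real.tan T) := by
    rw [← l4]
    ring
  rw [l5]
  linarith

end wh2

/-! ## numbers -/

theorem k3_lo : 2630236 / 10000000 < k3 := by
  have h1 := c7_gt
  have h2 := c7_lt
  rw [k3_eq, lt_div_iff₀ (by linarith)]
  linarith

theorem sqk2 : 5128582 / 10000000 < Real.sqrt k3 := by
  have h1 := k3_lo
  rw [Real.lt_sqrt (by norm_num)]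
  norm_num at h1 ⊢
  linarith

theorem sqk3 : Real.sqrt k3 < 51287 / 100000 := by
  have h1 := k3_bd.2
  rw [Real.sqrt_lt' (by norm_num)]
  norm_num at h1 ⊢
  linarith

/-- the symmetric point -/
theorem num1 {q : ℝ} (h0 : 0 ≤ q) (h1 : q ≤ 732 / 10000) :
    1 - 2 * k3 < Real.sqrt k3 * (Real.cos q - Real.sin q) := by
  have e1 := k3_lo
  have e2 := sqk2
  have e3 : 1 - q ^ 2 / 2 ≤ Real.cos q := Real.one_sub_sq_div_two_le_cos
  have e4 := Pool.Agent.H48.KP.sin_le5 h0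
  have e5 : 92418 / 100000 ≤ Real.cos q - Real.sin q := by
    obtain ⟨w, hw⟩ : ∃ w : ℝ, w = 732 / 10000 - q := ⟨_, rfl⟩
    have hw0 : 0 ≤ w := by linarith
    have e6 : q ^ 2 ≤ 732 / 10000 * q := by nlinarith
    have e7 : q ^ 3 ≤ (732 / 10000) ^ 2 * q := by
      calc q ^ 3 = q ^ 2 * q := by ring
        _ ≤ (732 / 10000) ^ 2 * q :=
          mul_le_mul_of_nonneg_right (pow_le_pow_left₀ h0 h1 2) h0
    have e8 : q ^ 5 ≤ (732 / 10000) ^ 5 := pow_le_pow_left₀ h0 h1 5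
    have e9 : q - q ^ 3 / 6 + q ^ 2 / 2 ≤ 732 / 10000 - (732 / 10000) ^ 3 / 6 +
        (732 / 10000) ^ 2 / 2 := by
      have e10 : 732 / 10000 - (732 / 10000) ^ 3 / 6 + (732 / 10000 : ℝ) ^ 2 / 2 -
          (q - q ^ 3 / 6 + q ^ 2 / 2) =
          w * (1 + (732 / 10000 + q) / 2 - ((732 / 10000) ^ 2 + 732 / 10000 * q + q ^ 2) / 6) := by
        rw [hw]
        ring
      have e11 : 0 ≤ 1 + (732 / 10000 + q) / 2 -
          ((732 / 10000) ^ 2 + 732 / 10000 * q + q ^ 2) / 6 := by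
        norm_num at e6 ⊢
        linarith
      have e12 := mul_nonneg hw0 e11
      linarith
    norm_num at e8 e9
    linarith
  calc 1 - 2 * k3 < 5128582 / 10000000 * (92418 / 100000) := by
        norm_num at e1 ⊢
        linarith
    _ ≤ Real.sqrt k3 * (Real.cos q - Real.sin q) :=
        mul_le_mul e2.le e5 (by norm_num) (Real.sqrt_nonneg _)

theorem poly_pos {v : ℝ} (h0 : 0 ≤ v) (h1 : v ≤ 1572 / 10000) :
    0 < 190 / 10000 - 1 / 10000 * v - 20692 / 10000 * v ^ 2 + 12417 / 1000 * v ^ 3 -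
      13007 / 1000 * v ^ 4 - 6312 / 100 * v ^ 5 + 9331 / 100 * v ^ 6 - 1096 / 100 * v ^ 7 -
      2825 / 10 * v ^ 8 := by
  obtain ⟨w, hw⟩ : ∃ w : ℝ, w = 1572 / 10000 - v := ⟨_, rfl⟩
  have hw0 : 0 ≤ w := by linarith
  have key : 190 / 10000 - 1 / 10000 * v - 20692 / 10000 * v ^ 2 + 12417 / 1000 * v ^ 3 -
      13007 / 1000 * v ^ 4 - 6312 / 100 * v ^ 5 + 9331 / 100 * v ^ 6 - 1096 / 100 * v ^ 7 -
      2825 / 10 * v ^ 8 =
      28991699218750000000000000 / 569036864960149947201 * w ^ 8 +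
      231909606933593750000000000 / 569036864960149947201 * (v * w ^ 7) +
      733575776171875000000000000 / 569036864960149947201 * (v ^ 2 * w ^ 6) +
      1228490874371972656250000000 / 569036864960149947201 * (v ^ 3 * w ^ 5) +
      1214114893900167695312500000 / 569036864960149947201 * (v ^ 4 * w ^ 4) +
      740519356627266372500000000 / 569036864960149947201 * (v ^ 5 * w ^ 3) +
      278623614373327602001187500 / 569036864960149947201 * (v ^ 6 * w ^ 2) +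
      59675691543615076684173200 / 569036864960149947201 * (v ^ 7 * w) +
      10257585795952631520802835 / 1138073729920299894402 * v ^ 8 := by
    rw [hw]
    ring
  rw [key]
  rcases h0.eq_or_lt with h2 | h2
  · have h3 : 0 < w := by linarith
    positivity
  · positivity

theorem s3_bd : 86602 / 100000 < Real.sqrt 3 / 2 ∧ Real.sqrt 3 / 2 < 86603 / 100000 := by
  constructor
  · have : (173204 : ℝ) / 100000 < Real.sqrt 3 := by
      rw [Real.lt_sqrt (by norm_num)]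
      norm_num
    linarith
  · have : Real.sqrt 3 < (173206 : ℝ) / 100000 := by
      rw [Real.sqrt_lt' (by norm_num)]
      norm_num
    linarith

theorem sp3 (x : ℝ) : Real.sin (Real.pi / 3 + x) =
    Real.sqrt 3 / 2 * Real.cos x + 1 / 2 * Real.sin x := by
  rw [Real.sin_add, Real.sin_pi_div_three, Real.cos_pi_div_three]

theorem psc (X Y : ℝ) : Real.sin X * Real.cos Y = (Real.sin (X + Y) + Real.sin (X - Y)) / 2 := by
  rw [Real.sin_add, Real.sin_sub]
  ring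

/-- the polynomial bound in the second region -/
theorem trig_pos {v m : ℝ} (h0 : 0 ≤ v) (h1 : v ≤ 1572 / 10000) (hm : 4169 / 10000 ≤ m) :
    0 < 3 * m * Real.cos (3 * v) + 3 * k3 / 2 * (Real.sin (Real.pi / 3 + 6 * v) +
      Real.sin (Real.pi / 3 + 0)) - (1 - k3) * (Real.sin (Real.pi / 3 + 4 * v) +
      2 * Real.sin (Real.pi / 3 + -(2 * v))) - k3 / 2 * (Real.sin (Real.pi / 3 + 10 * v) -
      Real.sin (Real.pi / 3 + -(8 * v))) := by
  obtain ⟨a1, a2⟩ := k3_bd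
  have a0 := k3_lo
  obtain ⟨b1, b2⟩ := s3_bd
  have hp := poly_pos h0 h1
  rw [sp3, sp3, sp3, sp3, sp3, sp3, Real.cos_neg, Real.cos_neg, Real.sin_neg, Real.sin_neg,
    Real.cos_zero, Real.sin_zero]
  obtain ⟨t, ht⟩ : ∃ t : ℝ, t = Real.sqrt 3 / 2 := ⟨_, rfl⟩
  rw [← ht] at b1 b2 ⊢
  have c3 := Pool.Agent.H48.KP.cos_ge6 (by linarith : 0 ≤ 3 * v)
  have c6 := Pool.Agent.H48.KP.cos_ge6 (by linarith : 0 ≤ 6 * v)
  have s6 := Pool.Agent.H48.KP.sin_ge7 (by linarith : 0 ≤ 6 * v)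
  have c4 := Pool.Agent.H48.KP.cos_le4 (by linarith : 0 ≤ 4 * v)
  have s4 := Pool.Agent.H48.KP.sin_le5 (by linarith : 0 ≤ 4 * v)
  have c2 := Pool.Agent.H48.KP.cos_le4 (by linarith : 0 ≤ 2 * v)
  have s2 := Pool.Agent.H48.KP.sin_ge3 (by linarith : 0 ≤ 2 * v)
  have c10 := Pool.Agent.H48.KP.cos_le8 (by linarith : 0 ≤ 10 * v)
  have c8 := Pool.Agent.H48.KP.cos_ge6 (by linarith : 0 ≤ 8 * v)
  have s10 := Pool.Agent.H48.KP.sin_le5 (by linarith : 0 ≤ 10 * v)
  have s8 := Pool.Agent.H48.KP.sin_le5 (by linarith : 0 ≤ 8 * v)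
  have q1 : v ≤ 1 := by linarith
  have hpi := Real.pi_gt_d2
  have C3 : 0 ≤ Real.cos (3 * v) :=
    Real.cos_nonneg_of_neg_pi_div_two_le_of_le (by linarith) (by linarith)
  have C6 : 0 ≤ Real.cos (6 * v) :=
    Real.cos_nonneg_of_neg_pi_div_two_le_of_le (by linarith) (by linarith)
  have C8 : 0 ≤ Real.cos (8 * v) :=
    Real.cos_nonneg_of_neg_pi_div_two_le_of_le (by linarith) (by linarith)
  have C4 : 0 ≤ Real.cos (4 * v) :=
    Real.cos_nonneg_of_neg_pi_div_two_le_of_le (by linarith) (by linarith)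
  have C2 : 0 ≤ Real.cos (2 * v) :=
    Real.cos_nonneg_of_neg_pi_div_two_le_of_le (by linarith) (by linarith)
  have C10 : 0 ≤ Real.cos (10 * v) + 2 / 1000 := by
    have h2 := Real.sin_sub_pi_div_two (10 * v)
    have h4 := Real.pi_gt_d4
    rcases le_or_gt (10 * v) (Real.pi / 2) with h3 | h3
    · have := Real.cos_nonneg_of_neg_pi_div_two_le_of_le (by linarith : -(Real.pi / 2) ≤ 10 * v) h3
      linarith
    · have := Real.sin_le (by linarith : 0 ≤ 10 * v - Real.pi / 2)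
      linarith
  have S6 : 0 ≤ Real.sin (6 * v) :=
    Real.sin_nonneg_of_nonneg_of_le_pi (by linarith) (by linarith)
  have S4 : 0 ≤ Real.sin (4 * v) :=
    Real.sin_nonneg_of_nonneg_of_le_pi (by linarith) (by linarith)
  have S2 : 0 ≤ Real.sin (2 * v) :=
    Real.sin_nonneg_of_nonneg_of_le_pi (by linarith) (by linarith)
  have S8 : 0 ≤ Real.sin (8 * v) :=
    Real.sin_nonneg_of_nonneg_of_le_pi (by linarith) (by linarith)
  have S10 : 0 ≤ Real.sin (10 * v) :=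
    Real.sin_nonneg_of_nonneg_of_le_pi (by linarith) (by linarith)
  have kt : 2630236 / 10000000 * (86602 / 100000) ≤ k3 * t :=
    mul_le_mul a0.le b1.le (by norm_num) (by linarith)
  have kt' : k3 * t ≤ 26303 / 100000 * (86603 / 100000) :=
    mul_le_mul a2.le b2.le (by linarith) (by norm_num)
  have kt2 : (1 - k3) * t ≤ (1 - 2630236 / 10000000) * (86603 / 100000) :=
    mul_le_mul (by linarith) b2.le (by linarith) (by norm_num)
  have u1 : 4169 / 10000 * Real.cos (3 * v) ≤ m * Real.cos (3 * v) :=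
    mul_le_mul_of_nonneg_right hm C3
  have u2 := mul_le_mul_of_nonneg_right kt C6
  have u3 := mul_le_mul_of_nonneg_right a0.le S6
  have u5 := mul_le_mul_of_nonneg_right kt2 C4
  have u6 : (1 - k3) * Real.sin (4 * v) ≤ (1 - 2630236 / 10000000) * Real.sin (4 * v) :=
    mul_le_mul_of_nonneg_right (by linarith) S4
  have u7 := mul_le_mul_of_nonneg_right kt2 C2
  have u8 : (1 - 26303 / 100000) * Real.sin (2 * v) ≤ (1 - k3) * Real.sin (2 * v) :=
    mul_le_mul_of_nonneg_right (by linarith) S2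
  have u9 := mul_le_mul_of_nonneg_right kt' C10
  have u10 := mul_le_mul_of_nonneg_right kt C8
  have u11 := mul_le_mul_of_nonneg_right a2.le S10
  have u12 := mul_le_mul_of_nonneg_right a2.le S8
  have kt0 : 0 ≤ k3 * t := by linarith
  have v2 := pow_nonneg h0 2
  have v3 := pow_nonneg h0 3
  have v4 := pow_nonneg h0 4
  have v5 := pow_nonneg h0 5
  have v6 := pow_nonneg h0 6
  have v7 := pow_nonneg h0 7
  have v8 := pow_nonneg h0 8
  ring_nf at *
  linarith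

/-- the positivity in the second region -/
theorem pos_A {be m : ℝ} (h0 : 0 ≤ be) (h1 : be / 9 ≤ 1572 / 10000) (hm : 4169 / 10000 ≤ m) :
    0 < 3 * (k3 * Real.sin ((Real.pi + be) / 3) + m -
      (1 - k3) * Real.sin ((Real.pi + be / 3) / 3)) / Real.cos ((Real.pi + be / 3) / 3) +
      (Real.sqrt k3 * 0 - k3 * Real.sin be + (1 - k3) * Real.sin (be / 3)) /
        Real.cos (be / 3) := by
  have hp := Real.pi_gt_d2
  obtain ⟨v, hv⟩ : ∃ v : ℝ, v = be / 9 := ⟨_, rfl⟩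
  have key := trig_pos (v := v) (m := m) (by linarith) (by linarith) hm
  have hcT : 0 < Real.cos ((Real.pi + be / 3) / 3) :=
    Real.cos_pos_of_mem_Ioo ⟨by linarith, by linarith⟩
  have hcx : 0 < Real.cos (be / 3) := Real.cos_pos_of_mem_Ioo ⟨by linarith, by linarith⟩
  have p1 := psc ((Real.pi + be) / 3) (be / 3)
  have p2 := psc ((Real.pi + be / 3) / 3) (be / 3)
  have p3 := psc (be / 3) ((Real.pi + be / 3) / 3)
  have p4 := psc be ((Real.pi + be / 3) / 3)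
  rw [show (Real.pi + be) / 3 + be / 3 = Real.pi / 3 + 6 * v by rw [hv]; ring,
    show (Real.pi + be) / 3 - be / 3 = Real.pi / 3 + 0 by ring] at p1
  rw [show (Real.pi + be / 3) / 3 + be / 3 = Real.pi / 3 + 4 * v by rw [hv]; ring,
    show (Real.pi + be / 3) / 3 - be / 3 = Real.pi / 3 + -(2 * v) by rw [hv]; ring] at p2
  rw [show be / 3 + (Real.pi + be / 3) / 3 = Real.pi / 3 + 4 * v by rw [hv]; ring,
    show be / 3 - (Real.pi + be / 3) / 3 = -(Real.pi / 3 + -(2 * v)) by rw [hv]; ring,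
    Real.sin_neg] at p3
  rw [show be + (Real.pi + be / 3) / 3 = Real.pi / 3 + 10 * v by rw [hv]; ring,
    show be - (Real.pi + be / 3) / 3 = -(Real.pi / 3 + -(8 * v)) by rw [hv]; ring,
    Real.sin_neg] at p4
  rw [show 3 * v = be / 3 by rw [hv]; ring] at key
  have gen : ∀ A B C D c1 c2 : ℝ, c1 ≠ 0 → c2 ≠ 0 →
      3 * (k3 * A + m - (1 - k3) * B) / c1 + (Real.sqrt k3 * 0 - k3 * C + (1 - k3) * D) / c2 =
      (3 * k3 * (A * c2) + 3 * m * c2 - 3 * (1 - k3) * (B * c2) - k3 * (C * c1) +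
      (1 - k3) * (D * c1)) / (c1 * c2) := by
    intro A B C D c1 c2 h1 h2
    field_simp
    ring
  rw [gen _ _ _ _ _ _ hcT.ne' hcx.ne', p1, p2, p3, p4]
  apply div_pos ?_ (mul_pos hcT hcx)
  linarith

theorem m_bd {x : ℝ} (h0 : 9068 / 30000 * Real.pi ≤ x) (h1 : x ≤ Real.pi / 2) :
    4169 / 10000 ≤ Real.sqrt k3 * Real.sin x := by
  have hp := Real.pi_gt_d4
  have h2 : Real.sin (9495 / 10000) ≤ Real.sin x :=
    Real.sin_le_sin_of_le_of_le_pi_div_two (by linarith) h1 (by linarith)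
  have h3 := Pool.Agent.H48.KP.sin_ge7 (by norm_num : (0 : ℝ) ≤ 9495 / 10000)
  have h4 := sqk2
  norm_num at h3
  calc (4169 / 10000 : ℝ) ≤ 5128582 / 10000000 * (8131 / 10000) := by norm_num
    _ ≤ Real.sqrt k3 * Real.sin x := mul_le_mul h4.le (by linarith) (by norm_num)
        (Real.sqrt_nonneg _)

section wh3

variable {E : Type} [NormedAddCommGroup E] [InnerProductSpace ℂ E]

theorem Ad3_symm {x y : E} (h : Ad3 x y) : Ad3 y x := by
  unfold Ad3 at h ⊢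
  rwa [norm_inner_symm]

/-- the second region: the first phase is negative -/
theorem regA (hTR : T_TR3) (h a b c d : E) (hh : ‖h‖ = 1) (ha : ‖a‖ = 1) (hb : ‖b‖ = 1)
    (hc : ‖c‖ = 1) (hd : ‖d‖ = 1) (ja : Ad3 h a) (jb : Ad3 h b) (jc : Ad3 h c) (jd : Ad3 h d)
    (jab : Ad3 a b) (jbc : Ad3 b c) (jcd : Ad3 c d) (jda : Ad3 d a) (hneg : ar h a b < 0)
    (hS : 4767 / 2500 * Real.pi ≤ ar h a b + ar h b c + ar h c d + ar h d a)
    (hS2 : ar h a b + ar h b c + ar h c d + ar h d a < 2 * Real.pi) : False := by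
  have hp := Real.pi_gt_d4
  have hp' := Real.pi_lt_d4
  have t1 := (abs_lt.1 (hTR E h b c hh hb hc jb jbc (Ad3_symm jc))).2
  have t2 := (abs_lt.1 (hTR E h c d hh hc hd jc jcd (Ad3_symm jd))).2
  have t3 := (abs_lt.1 (hTR E h d a hh hd ha jd jda (Ad3_symm ja))).2
  obtain ⟨be, hbe⟩ : ∃ be : ℝ, be = -ar h a b := ⟨_, rfl⟩
  have hb0 : 0 < be := by linarith
  obtain ⟨S', hS'⟩ : ∃ S' : ℝ, S' = ar h b c + ar h c d + ar h d a := ⟨_, rfl⟩
  have hb1 : be < 4504 / 10000 * Real.pi := by linarith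
  have hq : 2 * ((Real.pi + be / 3) / 3) - S' / 3 + (be - be / 3) / 3 =
      (2 * Real.pi - (ar h a b + ar h b c + ar h c d + ar h d a) + be / 3) / 3 := by
    rw [hS', hbe]
    ring
  have key := reg2G h a b c d hh ha hb hc hd ja jb jc jd jab jbc jcd jda be (be / 3) S' hS'
    (by linarith) (by linarith) hb0.le (by linarith) (by linarith) (by linarith)
    (by
      rw [hq]
      obtain ⟨q, hqd⟩ : ∃ q : ℝ, q = (2 * Real.pi -
        (ar h a b + ar h b c + ar h c d + ar h d a) + be / 3) / 3 := ⟨_, rfl⟩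
      obtain ⟨τ, hτ⟩ : ∃ τ : ℝ, τ = (be - be / 3) / 3 := ⟨_, rfl⟩
      rw [← hqd, ← hτ]
      have q0 : 0 ≤ q := by linarith
      have q1 : q ≤ 255 / 1000 := by linarith
      have τ0 : 0 ≤ τ := by linarith
      have τ1 : τ ≤ 315 / 1000 := by linarith
      have c1 : 1 - q ^ 2 / 2 ≤ Real.cos q := Real.one_sub_sq_div_two_le_cos
      have c2 : 1 - τ ^ 2 / 2 ≤ Real.cos τ := Real.one_sub_sq_div_two_le_cos
      have q2 : q ^ 2 ≤ (255 / 1000) ^ 2 := pow_le_pow_left₀ q0 q1 2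
      have τ2 : τ ^ 2 ≤ (315 / 1000) ^ 2 := pow_le_pow_left₀ τ0 τ1 2
      have d1 : 51285 / 100000 * (1 - (255 / 1000) ^ 2 / 2) ≤ Real.sqrt k3 * Real.cos q :=
        mul_le_mul (by linarith [sqk2]) (by linarith) (by norm_num) (Real.sqrt_nonneg _)
      have d2 : 26302 / 100000 * (1 - (315 / 1000) ^ 2 / 2) ≤ k3 * Real.cos τ :=
        mul_le_mul k3_bd.1.le (by linarith) (by norm_num) k3_pos.le
      have d3 := k3_bd.1
      norm_num at d1 d2
      linarith)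
    (by
      intro ps hps
      have hps1 : ps < 11 * Real.pi / 14 := by
        rcases hps with h | h | h <;> rw [h] <;> assumption
      have hps2 : S' - 11 * Real.pi / 7 ≤ ps := by
        rcases hps with h | h | h <;> rw [h] <;> linarith
      have hS'1 : 4767 / 2500 * Real.pi + be ≤ S' := by linarith
      have hS'2 : S' < 33 * Real.pi / 14 := by linarith
      have hS'3 : S' < 2 * Real.pi + be := by linarith
      obtain ⟨Y, hY⟩ : ∃ Y : ℝ, Y = (Real.pi + be / 3) / 3 + (ps - S' / 3) / 2 := ⟨_, rfl⟩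
      rw [← hY]
      have Y1 : 1832 / 10000 * Real.pi + 4 * be / 9 ≤ Y := by linarith
      have Y2 : Y ≤ 4084 / 10000 * Real.pi - be / 18 := by linarith
      refine ⟨by linarith, by linarith, by linarith, by linarith, by linarith, by linarith, ?_⟩
      have hcx : 0 < Real.cos (be / 3) := Real.cos_pos_of_mem_Ioo ⟨by linarith, by linarith⟩
      have hcY : 0 < Real.cos Y := Real.cos_pos_of_mem_Ioo ⟨by linarith, by linarith⟩
      rw [Real.tan_eq_sin_div_cos, div_le_div_iff₀ hcx hcY]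
      have e1 := psc be Y
      have e2 := Real.sin_sub Y (be / 3)
      have e3 : Real.sin (be + Y) ≤ 1 := Real.sin_le_one _
      rcases le_or_gt be (3297 / 10000 * Real.pi) with g | g
      · have e4 : Real.sin (be - Y) ≤ 0 :=
          Real.sin_nonpos_of_nonpos_of_neg_pi_le (by linarith) (by linarith)
        have e5 : 1 / 2 ≤ Real.sin (Y - be / 3) := by
          rw [← Real.sin_pi_div_six]
          exact Real.sin_le_sin_of_le_of_le_pi_div_two (by linarith) (by linarith) (by linarith)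
        linarith
      · have e4 : Real.sin (be - Y) ≤ 22 / 100 := by
          rcases le_or_gt (be - Y) 0 with g2 | g2
          · have := Real.sin_nonpos_of_nonpos_of_neg_pi_le g2 (by linarith)
            linarith
          · have := Real.sin_le g2.le
            linarith
        have e5 : Real.sin (69 / 100) ≤ Real.sin (Y - be / 3) :=
          Real.sin_le_sin_of_le_of_le_pi_div_two (by linarith) (by linarith) (by linarith)
        have e6 := Pool.Agent.H48.KP.sin_ge3 (by norm_num : (0 : ℝ) ≤ 69 / 100)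
        norm_num at e6
        linarith)
  have hz : ar h a b + be = 0 := by linarith
  rw [hz, Real.sin_zero] at key
  have hm : 4169 / 10000 ≤ Real.sqrt k3 * Real.sin ((S' - Real.pi - be) / 3) :=
    m_bd (by linarith) (by linarith)
  have := pos_A (be := be) hb0.le (by linarith) hm
  linarith

/-- the second region: the first phase is small -/
theorem regB (hTR : T_TR3) (h a b c d : E) (hh : ‖h‖ = 1) (ha : ‖a‖ = 1) (hb : ‖b‖ = 1)
    (hc : ‖c‖ = 1) (hd : ‖d‖ = 1) (ja : Ad3 h a) (jb : Ad3 h b) (jc : Ad3 h c) (jd : Ad3 h d)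
    (jab : Ad3 a b) (jbc : Ad3 b c) (jcd : Ad3 c d) (jda : Ad3 d a) (hpos : 0 ≤ ar h a b)
    (hS : 4767 / 2500 * Real.pi ≤ ar h a b + ar h b c + ar h c d + ar h d a)
    (hS2 : ar h a b + ar h b c + ar h c d + ar h d a < 2 * Real.pi)
    (hsm : ar h a b ≤ 233 / 10000 * Real.pi) : False := by
  have hp := Real.pi_gt_d4
  have hp' := Real.pi_lt_d4
  have t1 := (abs_lt.1 (hTR E h b c hh hb hc jb jbc (Ad3_symm jc))).2
  have t2 := (abs_lt.1 (hTR E h c d hh hc hd jc jcd (Ad3_symm jd))).2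
  have t3 := (abs_lt.1 (hTR E h d a hh hd ha jd jda (Ad3_symm ja))).2
  obtain ⟨S', hS'⟩ : ∃ S' : ℝ, S' = ar h b c + ar h c d + ar h d a := ⟨_, rfl⟩
  obtain ⟨p, hpd⟩ : ∃ p : ℝ, p = ar h a b := ⟨_, rfl⟩
  have key := reg2G h a b c d hh ha hb hc hd ja jb jc jd jab jbc jcd jda 0 0 S' hS'
    (by linarith) (by linarith) le_rfl (by linarith) le_rfl (by linarith)
    (by
      obtain ⟨q, hqd⟩ : ∃ q : ℝ, q = 2 * ((Real.pi + 0) / 3) - S' / 3 + (0 - 0) / 3 := ⟨_, rfl⟩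
      rw [← hqd, show ((0 : ℝ) - 0) / 3 = 0 by norm_num, Real.cos_zero]
      have q0 : 0 ≤ q := by linarith
      have q1 : q ≤ 123 / 1000 := by linarith
      have c1 : 1 - q ^ 2 / 2 ≤ Real.cos q := Real.one_sub_sq_div_two_le_cos
      have q2 : q ^ 2 ≤ (123 / 1000) ^ 2 := pow_le_pow_left₀ q0 q1 2
      have d1 : 51285 / 100000 * (1 - (123 / 1000) ^ 2 / 2) ≤ Real.sqrt k3 * Real.cos q :=
        mul_le_mul (by linarith [sqk2]) (by linarith) (by norm_num) (Real.sqrt_nonneg _)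
      have d3 := k3_bd.1
      norm_num at d1
      linarith)
    (by
      intro ps hps
      have hps1 : ps < 11 * Real.pi / 14 := by
        rcases hps with h | h | h <;> rw [h] <;> assumption
      have hps2 : S' - 11 * Real.pi / 7 ≤ ps := by
        rcases hps with h | h | h <;> rw [h] <;> linarith
      have hS'1 : 18835 / 10000 * Real.pi ≤ S' := by linarith
      have hS'3 : S' < 2 * Real.pi := by linarith
      refine ⟨by linarith, by linarith, by linarith, by linarith, by linarith, by linarith, ?_⟩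
      rw [Real.sin_zero, Real.cos_zero]
      norm_num
      exact Real.tan_nonneg_of_nonneg_of_le_pi_div_two (by linarith) (by linarith))
  rw [Real.sin_zero, Real.cos_zero, add_zero, add_zero, sub_zero, Real.sin_pi_div_three,
    Real.cos_pi_div_three, ← hpd] at key
  have e1 : Real.sin (9495 / 10000) - Real.sin ((S' - Real.pi) / 3) ≤ p / 3 := by
    rcases le_or_gt (9495 / 10000) ((S' - Real.pi) / 3) with g | g
    · have := Real.sin_le_sin_of_le_of_le_pi_div_two (by linarith : -(Real.pi / 2) ≤ 9495 / 10000)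
        (by linarith : (S' - Real.pi) / 3 ≤ Real.pi / 2) g
      linarith
    · have e2 := Real.abs_sin_sub_sin_le (9495 / 10000) ((S' - Real.pi) / 3)
      have e3 := le_abs_self (Real.sin (9495 / 10000) - Real.sin ((S' - Real.pi) / 3))
      rw [abs_of_pos (by linarith : 0 < 9495 / 10000 - (S' - Real.pi) / 3)] at e2
      linarith
  have h3 := Pool.Agent.H48.KP.sin_ge7 (by norm_num : (0 : ℝ) ≤ 9495 / 10000)
  have h4 := sqk2
  have h5 := k3_lo
  obtain ⟨b1, b2⟩ := s3_bd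
  norm_num at h3
  have hp0 : 0 ≤ p := by linarith
  have hp1 : p ≤ 733 / 10000 := by linarith
  have h6 := Pool.Agent.H48.KP.sin_ge3 hp0
  have h7 : p ^ 3 ≤ (733 / 10000) ^ 3 := pow_le_pow_left₀ hp0 hp1 3
  have h8 : 5128582 / 10000000 * (8131 / 10000 - p / 3) ≤
      Real.sqrt k3 * Real.sin ((S' - Real.pi) / 3) :=
    mul_le_mul h4.le (by linarith) (by linarith) (Real.sqrt_nonneg _)
  have h9 : 5128582 / 10000000 * (p - p ^ 3 / 6) ≤ Real.sqrt k3 * Real.sin p := by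
    have h10 : 0 ≤ p - p ^ 3 / 6 := by
      have : p ^ 3 ≤ p := by nlinarith [mul_nonneg hp0 hp0]
      linarith
    exact mul_le_mul h4.le h6 h10 (Real.sqrt_nonneg _)
  have h10 : (1 - 2 * k3) * (Real.sqrt 3 / 2) ≤ (1 - 2 * (2630236 / 10000000)) *
      (86603 / 100000) :=
    mul_le_mul (by linarith) b2.le (by positivity) (by norm_num)
  norm_num at h7 h10
  linarith

/-- the first region -/
theorem regC (hTR : T_TR3) (h a b c d : E) (hh : ‖h‖ = 1) (ha : ‖a‖ = 1) (hb : ‖b‖ = 1)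
    (hc : ‖c‖ = 1) (hd : ‖d‖ = 1) (ja : Ad3 h a) (jb : Ad3 h b) (jc : Ad3 h c) (jd : Ad3 h d)
    (jab : Ad3 a b) (jbc : Ad3 b c) (jcd : Ad3 c d) (jda : Ad3 d a) (q : ℝ)
    (hq : q = Real.pi / 2 - (ar h a b + ar h b c + ar h c d + ar h d a) / 4)
    (hS : 4767 / 2500 * Real.pi ≤ ar h a b + ar h b c + ar h c d + ar h d a)
    (hS2 : ar h a b + ar h b c + ar h c d + ar h d a < 2 * Real.pi)
    (n0 : q ≤ ar h a b) (n1 : q ≤ ar h b c) (n2 : q ≤ ar h c d) (n3 : q ≤ ar h d a) :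
    False := by
  have hp := Real.pi_gt_d4
  have hp' := Real.pi_lt_d4
  have t0 := (abs_lt.1 (hTR E h a b hh ha hb ja jab (Ad3_symm jb))).2
  have t1 := (abs_lt.1 (hTR E h b c hh hb hc jb jbc (Ad3_symm jc))).2
  have t2 := (abs_lt.1 (hTR E h c d hh hc hd jc jcd (Ad3_symm jd))).2
  have t3 := (abs_lt.1 (hTR E h d a hh hd ha jd jda (Ad3_symm ja))).2
  have q0 : 0 ≤ q := by linarith
  have q1 : q ≤ 732 / 10000 := by linarith
  have hx : ∀ ps : ℝ, q ≤ ps → ps < 11 * Real.pi / 14 →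
      0 ≤ (ps + q) / 2 ∧ (ps + q) / 2 < Real.pi / 2 ∧ (ps + q) / 2 ≤ Real.pi ∧
      0 ≤ ps - (ps + q) / 2 ∧ ps - (ps + q) / 2 ≤ Real.pi ∧ 0 ≤ Real.tan ((ps + q) / 2) ∧
      ps - (ps + q) / 2 = (ps + q) / 2 - q := by
    intro ps h1 h2
    refine ⟨by linarith, by linarith, by linarith, by linarith, by linarith, ?_, by ring⟩
    exact Real.tan_nonneg_of_nonneg_of_le_pi_div_two (by linarith) (by linarith)
  obtain ⟨x0, hx0⟩ : ∃ x : ℝ, x = (ar h a b + q) / 2 := ⟨_, rfl⟩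
  obtain ⟨x1, hx1⟩ : ∃ x : ℝ, x = (ar h b c + q) / 2 := ⟨_, rfl⟩
  obtain ⟨x2, hx2⟩ : ∃ x : ℝ, x = (ar h c d + q) / 2 := ⟨_, rfl⟩
  obtain ⟨x3, hx3⟩ : ∃ x : ℝ, x = (ar h d a + q) / 2 := ⟨_, rfl⟩
  obtain ⟨a1, a2, a3, a4, a5, a6, a7⟩ := hx _ n0 t0
  obtain ⟨b1, b2, b3, b4, b5, b6, b7⟩ := hx _ n1 t1
  obtain ⟨c1, c2, c3, c4, c5, c6, c7⟩ := hx _ n2 t2
  obtain ⟨d1, d2, d3, d4, d5, d6, d7⟩ := hx _ n3 t3
  rw [← hx0] at a1 a2 a3 a4 a5 a6 a7
  rw [← hx1] at b1 b2 b3 b4 b5 b6 b7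
  rw [← hx2] at c1 c2 c3 c4 c5 c6 c7
  rw [← hx3] at d1 d2 d3 d4 d5 d6 d7
  have hsum : x0 + x1 + x2 + x3 = 4 * (Real.pi / 4) := by
    rw [hx0, hx1, hx2, hx3, hq]
    ring
  have key := wheel4 h a b c d hh ha hb hc hd (ne_of_Ad3 ja) (ne_of_Ad3 jb) (ne_of_Ad3 jc)
    (ne_of_Ad3 jd) (Real.pi / 2 + x0) (Real.pi / 2 + x1) (Real.pi / 2 + x2) (Real.pi / 2 + x3)
    (Real.pi / 2 - x0) (Real.pi / 2 - x1) (Real.pi / 2 - x2) (Real.pi / 2 - x3)
    (by linarith) (by linarith) (by linarith) (by linarith) (by linarith) (by linarith)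
  have g0 := edgeP (norm_nonneg _) jab (norm_nonneg _) ja (norm_nonneg _) jb a1 a2 a1 a3 a4 a5 a6
  have g1 := edgeP (norm_nonneg _) jbc (norm_nonneg _) jb (norm_nonneg _) jc b1 b2 b1 b3 b4 b5 b6
  have g2 := edgeP (norm_nonneg _) jcd (norm_nonneg _) jc (norm_nonneg _) jd c1 c2 c1 c3 c4 c5 c6
  have g3 := edgeP (norm_nonneg _) jda (norm_nonneg _) jd (norm_nonneg _) ja d1 d2 d1 d3 d4 d5 d6
  have l0 := lin_tan (τ := 0) (q := q) a1 a2
  have l1 := lin_tan (τ := 0) (q := q) b1 b2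
  have l2 := lin_tan (τ := 0) (q := q) c1 c2
  have l3 := lin_tan (τ := 0) (q := q) d1 d2
  rw [add_zero, Real.sin_zero, Real.cos_zero] at l0 l1 l2 l3
  rw [a7, l0] at g0
  rw [b7, l1] at g1
  rw [c7, l2] at g2
  rw [d7, l3] at g3
  have nm := num1 q0 q1
  have hsq : 0 ≤ Real.sin q := Real.sin_nonneg_of_nonneg_of_le_pi q0 (by linarith)
  have hsq2 := mul_nonneg (Real.sqrt_nonneg k3) hsq
  have ht := tan4 (by linarith : 0 ≤ Real.pi / 4) (by linarith) a1 a2 b1 b2 c1 c2 d1 d2 hsum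
  rw [Real.tan_pi_div_four] at ht
  have ht2 := mul_le_mul_of_nonneg_left ht
    (by linarith : 0 ≤ Real.sqrt k3 * Real.cos q + k3 * 1 - (1 - k3))
  linarith

end wh3

theorem pf_W4R (hTR : T_TR3) : T_W4R := by
  intro E _ _ h a b c d hh ha hb hc hd ja jb jc jd jab jbc jcd jda
  by_contra hcon
  have hS := not_lt.1 hcon
  have hS2 := pf_W4A hTR E h a b c d hh ha hb hc hd ja jb jc jd jab jbc jcd jda
  have hp := Real.pi_pos
  have all : ∀ a b c d : E, ‖a‖ = 1 → ‖b‖ = 1 → ‖c‖ = 1 → ‖d‖ = 1 → Ad3 h a → Ad3 h b →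
      Ad3 h c → Ad3 h d → Ad3 a b → Ad3 b c → Ad3 c d → Ad3 d a →
      4767 / 2500 * Real.pi ≤ ar h a b + ar h b c + ar h c d + ar h d a →
      ar h a b + ar h b c + ar h c d + ar h d a < 2 * Real.pi →
      Real.pi / 2 - (ar h a b + ar h b c + ar h c d + ar h d a) / 4 ≤ ar h a b := by
    intro a b c d ha hb hc hd ja jb jc jd jab jbc jcd jda h1 h2
    by_contra h3
    have h4 := not_le.1 h3
    rcases lt_or_ge (ar h a b) 0 with h5 | h5
    · exact regA hTR h a b c d hh ha hb hc hd ja jb jc jd jab jbc jcd jda h5 h1 h2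
    · exact regB hTR h a b c d hh ha hb hc hd ja jb jc jd jab jbc jcd jda h5 h1 h2 (by linarith)
  have n0 := all a b c d ha hb hc hd ja jb jc jd jab jbc jcd jda hS hS2
  have n1 := all b c d a hb hc hd ha jb jc jd ja jbc jcd jda jab (by linarith) (by linarith)
  have n2 := all c d a b hc hd ha hb jc jd ja jb jcd jda jab jbc (by linarith) (by linarith)
  have n3 := all d a b c hd ha hb hc jd ja jb jc jda jab jbc jcd (by linarith) (by linarith)
  exact regC hTR h a b c d hh ha hb hc hd ja jb jc jd jab jbc jcd jda _ rfl hS hS2 n0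
    (by linarith) (by linarith) (by linarith)

end

end Pool.Agent.H86.FRW
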