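import Pool.Agent.H58.FN.Targets

/-!
MP_6a7a6f_gt: the dual inequality of the wheels with four spokes.
-/

namespace Pool.Agent.H86.FRW

open Pool.Agent.H58.FL Pool.Agent.H58.FN

noncomputable section

variable {E : Type} [NormedAddCommGroup E] [InnerProductSpace ℂ E]

/-- the real part of the inner product -/
def ri (a b : E) : ℝ := (inner ℂ a b).re

theorem ri_symm (a b : E) : ri a b = ri b a := inner_re_symm (𝕜 := ℂ) a b

theorem ri_self (a : E) : ri a a = ‖a‖ ^ 2 := by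
  unfold ri
  have := inner_self_eq_norm_sq (𝕜 := ℂ) a
  simpa using this

theorem ri_smul_left (r : ℝ) (a b : E) : ri ((r : ℂ) • a) b = r * ri a b := by
  unfold ri
  rw [inner_smul_left, Complex.conj_ofReal, Complex.re_ofReal_mul]

theorem ri_smul_right (r : ℝ) (a b : E) : ri a ((r : ℂ) • b) = r * ri a b := by
  unfold ri
  rw [inner_smul_right, Complex.re_ofReal_mul]

theorem ri_add_left (a b c : E) : ri (a + b) c = ri a c + ri b c := by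
  unfold ri
  rw [inner_add_left, Complex.add_re]

theorem ri_add_right (a b c : E) : ri a (b + c) = ri a b + ri a c := by
  unfold ri
  rw [inner_add_right, Complex.add_re]

theorem nsq (p q t : ℝ) (a b c : E) : ‖(p : ℂ) • a + (q : ℂ) • b + (t : ℂ) • c‖ ^ 2 =
    p ^ 2 * ‖a‖ ^ 2 + q ^ 2 * ‖b‖ ^ 2 + t ^ 2 * ‖c‖ ^ 2 + 2 * p * q * ri a b +
      2 * p * t * ri a c + 2 * q * t * ri b c := by
  rw [← ri_self ((p : ℂ) • a + (q : ℂ) • b + (t : ℂ) • c)]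
  simp only [ri_add_left, ri_add_right, ri_smul_left, ri_smul_right]
  rw [ri_symm b a, ri_symm c a, ri_symm c b, ri_self, ri_self, ri_self]
  ring

/-- the form of one edge with the angle `g` -/
def qf (g : ℝ) (a b : E) : ℝ :=
  Real.cos g / Real.sin g * (‖a‖ ^ 2 + ‖b‖ ^ 2) - 2 * ri a b / Real.sin g

/-- two consecutive edges -/
theorem qf_merge (g₁ g₂ : ℝ) (a b c : E) (h₁ : 0 < Real.sin g₁) (h₂ : 0 < Real.sin g₂)
    (h : 0 < Real.sin (g₁ + g₂)) : qf (g₁ + g₂) a c ≤ qf g₁ a b + qf g₂ b c := by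
  have key := nsq (-Real.sin g₂) (Real.sin (g₁ + g₂)) (-Real.sin g₁) a b c
  have h0 := sq_nonneg ‖((-Real.sin g₂ : ℝ) : ℂ) • a + ((Real.sin (g₁ + g₂) : ℝ) : ℂ) • b +
    ((-Real.sin g₁ : ℝ) : ℂ) • c‖
  rw [key] at h0
  have e : qf g₁ a b + qf g₂ b c - qf (g₁ + g₂) a c =
      ((-Real.sin g₂) ^ 2 * ‖a‖ ^ 2 + Real.sin (g₁ + g₂) ^ 2 * ‖b‖ ^ 2 +
        (-Real.sin g₁) ^ 2 * ‖c‖ ^ 2 + 2 * (-Real.sin g₂) * Real.sin (g₁ + g₂) * ri a b +
        2 * (-Real.sin g₂) * (-Real.sin g₁) * ri a c +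
        2 * Real.sin (g₁ + g₂) * (-Real.sin g₁) * ri b c) /
      (Real.sin g₁ * Real.sin g₂ * Real.sin (g₁ + g₂)) := by
    unfold qf
    rw [eq_div_iff (by positivity)]
    have hs : Real.sin (g₁ + g₂) = Real.sin g₁ * Real.cos g₂ + Real.cos g₁ * Real.sin g₂ :=
      Real.sin_add _ _
    have hc : Real.cos (g₁ + g₂) = Real.cos g₁ * Real.cos g₂ - Real.sin g₁ * Real.sin g₂ :=
      Real.cos_add _ _
    have hc1 : Real.cos g₁ ^ 2 = 1 - Real.sin g₁ ^ 2 := by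
      have := Real.sin_sq_add_cos_sq g₁
      linarith
    have hc2 : Real.cos g₂ ^ 2 = 1 - Real.sin g₂ ^ 2 := by
      have := Real.sin_sq_add_cos_sq g₂
      linarith
    have e1 : ∀ x y z s u v : ℝ, u ≠ 0 → v ≠ 0 → s ≠ 0 →
        (x / u * (‖a‖ ^ 2 + ‖b‖ ^ 2) - 2 * ri a b / u +
          (y / v * (‖b‖ ^ 2 + ‖c‖ ^ 2) - 2 * ri b c / v) -
          (z / s * (‖a‖ ^ 2 + ‖c‖ ^ 2) - 2 * ri a c / s)) * (u * v * s) =
        x * v * s * (‖a‖ ^ 2 + ‖b‖ ^ 2) - 2 * ri a b * v * s +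
          (y * u * s * (‖b‖ ^ 2 + ‖c‖ ^ 2) - 2 * ri b c * u * s) -
          (z * u * v * (‖a‖ ^ 2 + ‖c‖ ^ 2) - 2 * ri a c * u * v) := by
      intro x y z s u v hu hv hs
      field_simp
    rw [e1 _ _ _ _ _ _ h₁.ne' h₂.ne' h.ne', hc, hs]
    linear_combination (Real.sin g₂ ^ 2 * ‖a‖ ^ 2) * hc1 + (Real.sin g₁ ^ 2 * ‖c‖ ^ 2) * hc2
  have h3 : 0 ≤ qf g₁ a b + qf g₂ b c - qf (g₁ + g₂) a c := by
    rw [e]
    exact div_nonneg h0 (by positivity)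
  linarith

theorem qf_neg (g : ℝ) (a b : E) : qf (Real.pi - g) b (-a) = -qf g a b := by
  unfold qf
  rw [Real.cos_pi_sub, Real.sin_pi_sub, norm_neg]
  have : ri b (-a) = -ri a b := by
    unfold ri
    rw [inner_neg_right, Complex.neg_re]
    have := inner_re_symm (𝕜 := ℂ) b a
    simpa using this
  rw [this]
  ring

/-- the form of a wheel with four spokes is nonnegative -/
theorem qf_four (g₀ g₁ g₂ g₃ : ℝ) (a b c d : E) (h₀ : 0 < g₀) (h₁ : 0 < g₁) (h₂ : 0 < g₂)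
    (h₃ : 0 < g₃) (h : g₀ + g₁ + g₂ + g₃ = Real.pi) :
    0 ≤ qf g₀ a b + qf g₁ b c + qf g₂ c d + qf g₃ d (-a) := by
  have k1 := qf_merge g₀ g₁ a b c (Real.sin_pos_of_pos_of_lt_pi h₀ (by linarith))
    (Real.sin_pos_of_pos_of_lt_pi h₁ (by linarith))
    (Real.sin_pos_of_pos_of_lt_pi (by linarith) (by linarith))
  have k2 := qf_merge g₂ g₃ c d (-a) (Real.sin_pos_of_pos_of_lt_pi h₂ (by linarith))
    (Real.sin_pos_of_pos_of_lt_pi h₃ (by linarith))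
    (Real.sin_pos_of_pos_of_lt_pi (by linarith) (by linarith))
  have k3 : qf (g₂ + g₃) c (-a) = -qf (g₀ + g₁) a c := by
    rw [← qf_neg]
    congr 1
    linarith
  linarith

/-- the direction of the spoke `x`, turned by `-t` -/
def yv (h x : E) (t : ℝ) : E := Complex.exp (-(t * Complex.I)) •
  ((inner ℂ x h / (‖inner ℂ h x‖ : ℂ)) • x - (‖inner ℂ h x‖ : ℂ) • h)

theorem inner_yv (h x z : E) (s t : ℝ) (hh : ‖h‖ = 1) (hx : inner ℂ h x ≠ 0)
    (hz : inner ℂ h z ≠ 0) : inner ℂ (yv h x s) (yv h z t) =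
    Complex.exp (-((t - s : ℝ) * Complex.I)) *
      (inner ℂ h x * inner ℂ x z * inner ℂ z h / (‖inner ℂ h x‖ * ‖inner ℂ h z‖ : ℝ) -
        (‖inner ℂ h x‖ * ‖inner ℂ h z‖ : ℝ)) := by
  have h1 : inner ℂ h h = (1 : ℂ) := by
    rw [inner_self_eq_norm_sq_to_K, hh]
    simp
  have hcx : (‖inner ℂ h x‖ : ℂ) ≠ 0 := by
    exact_mod_cast (norm_pos_iff.2 hx).ne'
  have hcz : (‖inner ℂ h z‖ : ℂ) ≠ 0 := by
    exact_mod_cast (norm_pos_iff.2 hz).ne'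
  have e1 : (starRingEnd ℂ) (inner ℂ x h) = inner ℂ h x := inner_conj_symm _ _
  have e2 : inner ℂ x h * inner ℂ h x = (‖inner ℂ h x‖ : ℂ) ^ 2 := by
    rw [← inner_conj_symm x h, Complex.conj_mul']
  have e3 : inner ℂ z h * inner ℂ h z = (‖inner ℂ h z‖ : ℂ) ^ 2 := by
    rw [← inner_conj_symm z h, Complex.conj_mul']
  have e4 : Complex.exp (-((t - s : ℝ) * Complex.I)) =
      (starRingEnd ℂ) (Complex.exp (-(s * Complex.I))) * Complex.exp (-(t * Complex.I)) := by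
    rw [← Complex.exp_conj, ← Complex.exp_add]
    congr 1
    simp only [map_neg, map_mul, Complex.conj_ofReal, Complex.conj_I]
    push_cast
    ring
  unfold yv
  rw [e4]
  simp only [inner_smul_left, inner_smul_right, inner_sub_left, inner_sub_right, h1, map_div₀, e1,
    Complex.conj_ofReal, mul_one]
  push_cast
  generalize (starRingEnd ℂ) (Complex.exp (-(s * Complex.I))) = P
  generalize Complex.exp (-(t * Complex.I)) = Q
  generalize (inner ℂ x z : ℂ) = W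
  generalize (inner ℂ z h : ℂ) = Z' at e3 ⊢
  generalize (inner ℂ x h : ℂ) = X' at e2 ⊢
  generalize (‖inner ℂ h x‖ : ℂ) = a at hcx e2 ⊢
  generalize (‖inner ℂ h z‖ : ℂ) = b at hcz e3 ⊢
  generalize (inner ℂ h z : ℂ) = Z at e3 ⊢
  generalize (inner ℂ h x : ℂ) = X at e2 ⊢
  have f1 : X / a * X' = a := by
    rw [div_mul_eq_mul_div, div_eq_iff hcx]
    linear_combination e2
  have f2 : Z' / b * Z = b := by
    rw [div_mul_eq_mul_div, div_eq_iff hcz]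
    linear_combination e3
  linear_combination (-Q * P * a) * f2 + (-Q * P * b) * f1

/-- the real part -/
theorem ri_yv (h x z : E) (s t : ℝ) (hh : ‖h‖ = 1) (hx : inner ℂ h x ≠ 0)
    (hz : inner ℂ h z ≠ 0) : ri (yv h x s) (yv h z t) =
    ‖inner ℂ x z‖ * Real.cos (ar h x z - (t - s)) -
      ‖inner ℂ h x‖ * ‖inner ℂ h z‖ * Real.cos (t - s) := by
  have hcx : 0 < ‖inner ℂ h x‖ := norm_pos_iff.2 hx
  have hcz : 0 < ‖inner ℂ h z‖ := norm_pos_iff.2 hz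
  obtain ⟨w, hw⟩ : ∃ w : ℂ, w = inner ℂ h x * inner ℂ x z * inner ℂ z h := ⟨_, rfl⟩
  have hn : ‖w‖ = ‖inner ℂ h x‖ * ‖inner ℂ h z‖ * ‖inner ℂ x z‖ := by
    rw [hw, norm_mul, norm_mul, norm_inner_symm z h]
    ring
  have ha : ar h x z = w.arg := by
    rw [hw]
    rfl
  unfold ri
  rw [inner_yv h x z s t hh hx hz, ← hw, ha]
  have e : Complex.exp (-((t - s : ℝ) * Complex.I)) *
      (w / (‖inner ℂ h x‖ * ‖inner ℂ h z‖ : ℝ) - (‖inner ℂ h x‖ * ‖inner ℂ h z‖ : ℝ)) =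
      (‖inner ℂ x z‖ : ℝ) * Complex.exp ((w.arg - (t - s) : ℝ) * Complex.I) -
        (‖inner ℂ h x‖ * ‖inner ℂ h z‖ : ℝ) * Complex.exp ((-(t - s) : ℝ) * Complex.I) := by
    have h2 : Complex.exp ((w.arg - (t - s) : ℝ) * Complex.I) =
        Complex.exp (w.arg * Complex.I) * Complex.exp (-((t - s : ℝ) * Complex.I)) := by
      rw [← Complex.exp_add]
      congr 1
      push_cast
      ring
    have h3 : Complex.exp ((-(t - s) : ℝ) * Complex.I) =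
        Complex.exp (-((t - s : ℝ) * Complex.I)) := by
      congr 1
      push_cast
      ring
    have h4 : w = (‖w‖ : ℝ) * Complex.exp (w.arg * Complex.I) :=
      (Complex.norm_mul_exp_arg_mul_I w).symm
    have h5 : ((‖inner ℂ h x‖ * ‖inner ℂ h z‖ : ℝ) : ℂ) ≠ 0 := by
      exact_mod_cast (mul_pos hcx hcz).ne'
    rw [h2, h3, mul_sub, mul_comm _ (w / _)]
    rw [show w / ((‖inner ℂ h x‖ * ‖inner ℂ h z‖ : ℝ) : ℂ) =
      (‖inner ℂ x z‖ : ℝ) * Complex.exp (w.arg * Complex.I) by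
        rw [div_eq_iff h5]
        conv_lhs => rw [h4, hn]
        push_cast
        ring]
    ring
  rw [e, Complex.sub_re, Complex.re_ofReal_mul, Complex.re_ofReal_mul,
    Complex.exp_ofReal_mul_I_re, Complex.exp_ofReal_mul_I_re, Real.cos_neg]

theorem norm_yv (h x : E) (t : ℝ) (hh : ‖h‖ = 1) (hx : inner ℂ h x ≠ 0) (hn : ‖x‖ = 1) :
    ‖yv h x t‖ ^ 2 = 1 - ‖inner ℂ h x‖ ^ 2 := by
  have h1 := ri_yv h x x t t hh hx hx
  have h2 : inner ℂ x x = (1 : ℂ) := by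
    rw [inner_self_eq_norm_sq_to_K, hn]
    simp
  have h3 : ar h x x = 0 := by
    have e : inner ℂ h x * inner ℂ x x * inner ℂ x h = ((‖inner ℂ h x‖ ^ 2 : ℝ) : ℂ) := by
      rw [h2, mul_one, ← inner_conj_symm x h, Complex.mul_conj']
      push_cast
      rfl
    unfold ar
    rw [e, Complex.arg_ofReal_of_nonneg (sq_nonneg _)]
  rw [ri_self, h3, h2] at h1
  rw [h1]
  simp
  ring

/-- The dual inequality of the wheels with four spokes. -/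
theorem wheel4 (h a b c d : E) (hh : ‖h‖ = 1) (ha : ‖a‖ = 1) (hb : ‖b‖ = 1) (hc : ‖c‖ = 1)
    (hd : ‖d‖ = 1) (ka : inner ℂ h a ≠ 0) (kb : inner ℂ h b ≠ 0) (kc : inner ℂ h c ≠ 0)
    (kd : inner ℂ h d ≠ 0) (f₀ f₁ f₂ f₃ g₀ g₁ g₂ g₃ : ℝ) (hf : f₀ + f₁ + f₂ + f₃ = 3 * Real.pi)
    (h₀ : 0 < g₀) (h₁ : 0 < g₁) (h₂ : 0 < g₂) (h₃ : 0 < g₃)
    (hg : g₀ + g₁ + g₂ + g₃ = Real.pi) :
    (‖inner ℂ a b‖ * Real.cos (ar h a b - f₀) - ‖inner ℂ h a‖ * ‖inner ℂ h b‖ * Real.cos f₀ -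
        Real.cos g₀ * (2 - ‖inner ℂ h a‖ ^ 2 - ‖inner ℂ h b‖ ^ 2) / 2) / Real.sin g₀ +
      (‖inner ℂ b c‖ * Real.cos (ar h b c - f₁) - ‖inner ℂ h b‖ * ‖inner ℂ h c‖ * Real.cos f₁ -
        Real.cos g₁ * (2 - ‖inner ℂ h b‖ ^ 2 - ‖inner ℂ h c‖ ^ 2) / 2) / Real.sin g₁ +
      (‖inner ℂ c d‖ * Real.cos (ar h c d - f₂) - ‖inner ℂ h c‖ * ‖inner ℂ h d‖ * Real.cos f₂ -
        Real.cos g₂ * (2 - ‖inner ℂ h c‖ ^ 2 - ‖inner ℂ h d‖ ^ 2) / 2) / Real.sin g₂ +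
      (‖inner ℂ d a‖ * Real.cos (ar h d a - f₃) - ‖inner ℂ h d‖ * ‖inner ℂ h a‖ * Real.cos f₃ -
        Real.cos g₃ * (2 - ‖inner ℂ h d‖ ^ 2 - ‖inner ℂ h a‖ ^ 2) / 2) / Real.sin g₃ ≤ 0 := by
  have hp := Real.pi_pos
  have key := qf_four g₀ g₁ g₂ g₃ (yv h a 0) (yv h b f₀) (yv h c (f₀ + f₁)) (yv h d (f₀ + f₁ + f₂))
    h₀ h₁ h₂ h₃ hg
  have hm : -yv h a 0 = yv h a (f₀ + f₁ + f₂ + f₃) := by
    unfold yv
    rw [hf, ← neg_smul]
    congr 1
    have e : Complex.exp (-((3 * Real.pi : ℝ) * Complex.I)) = -1 := by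
      have e1 : (-((3 * Real.pi : ℝ) * Complex.I) : ℂ) =
          -(Real.pi * Complex.I) + -(2 * Real.pi * Complex.I) := by
        push_cast
        ring
      rw [e1, Complex.exp_add, Complex.exp_neg, Complex.exp_neg, Complex.exp_pi_mul_I,
        Complex.exp_two_pi_mul_I]
      norm_num
    rw [e]
    simp
  rw [hm] at key
  have one : ∀ (g : ℝ) (x z : E) (s t : ℝ), ‖x‖ = 1 → ‖z‖ = 1 → inner ℂ h x ≠ 0 →
      inner ℂ h z ≠ 0 → 0 < Real.sin g → qf g (yv h x s) (yv h z t) =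
      -2 * ((‖inner ℂ x z‖ * Real.cos (ar h x z - (t - s)) -
        ‖inner ℂ h x‖ * ‖inner ℂ h z‖ * Real.cos (t - s) -
        Real.cos g * (2 - ‖inner ℂ h x‖ ^ 2 - ‖inner ℂ h z‖ ^ 2) / 2) / Real.sin g) := by
    intro g x z s t hx hz kx kz hsg
    unfold qf
    rw [norm_yv h x s hh kx hx, norm_yv h z t hh kz hz, ri_yv h x z s t hh kx kz]
    field_simp
    ring
  rw [one g₀ a b 0 f₀ ha hb ka kb (Real.sin_pos_of_pos_of_lt_pi h₀ (by linarith)),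
    one g₁ b c f₀ (f₀ + f₁) hb hc kb kc (Real.sin_pos_of_pos_of_lt_pi h₁ (by linarith)),
    one g₂ c d (f₀ + f₁) (f₀ + f₁ + f₂) hc hd kc kd
      (Real.sin_pos_of_pos_of_lt_pi h₂ (by linarith)),
    one g₃ d a (f₀ + f₁ + f₂) (f₀ + f₁ + f₂ + f₃) hd ha kd ka
      (Real.sin_pos_of_pos_of_lt_pi h₃ (by linarith)), sub_zero, add_sub_cancel_left,
    add_sub_cancel_left, add_sub_cancel_left] at key
  linarith

end

end Pool.Agent.H86.FRW
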