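import Pool.Agent.H86.FRW.DW
import Pool.Agent.H59.CPT.Num

/-!
MP_6a7a6f_gt: the wheels with four spokes, `S < 2 π`.

If `ψ_j` are the four phases and `S ≥ 2 π` is their sum, the dual inequality is used with
`φ_j = π / 2 + π ψ_j / S`, `γ_j = π / 2 - π ψ_j / S` if all `ψ_j ≥ 0`. If `ψ_0 = -β < 0`, it is used
with `φ_0 = π / 2 - β`, `γ_0 = π / 2 + 3 β / 8`, `φ_j = π / 2 + (1 + u) x_j`,
`γ_j = π / 2 - (1 + 3 u / 8) x_j`, `u = β / π`, `x_j = π ψ_j / (S + β)`.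
-/

namespace Pool.Agent.H86.FRW

open Pool.Agent.H58.FL Pool.Agent.H58.FN Pool.Agent.H59.CPT

noncomputable section

theorem sqk : 5128 / 10000 < Real.sqrt k3 := by
  have h1 := k3_bd.1
  rw [Real.lt_sqrt (by norm_num)]
  linarith

theorem ek : 3884 / 100000 < Real.sqrt k3 + 2 * k3 - 1 := by
  have h1 := k3_bd.1
  have h2 := sqk
  linarith

/-- one edge -/
theorem edge_lb {r c c' D F G : ℝ} (r0 : 0 ≤ r) (hr : k3 < r ^ 2) (c0 : 0 ≤ c)
    (hc : k3 < c ^ 2) (c0' : 0 ≤ c') (hc' : k3 < c' ^ 2) (hD : 0 ≤ D) (hF : F ≤ 0) :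
    Real.sqrt k3 * D - k3 * F - (1 - k3) * G + G * ((c ^ 2 - k3) + (c' ^ 2 - k3)) / 2 ≤
      r * D - c * c' * F - G * (2 - c ^ 2 - c' ^ 2) / 2 := by
  have hs0 : 0 ≤ Real.sqrt k3 := Real.sqrt_nonneg _
  have hs : Real.sqrt k3 * Real.sqrt k3 = k3 := Real.mul_self_sqrt k3_pos.le
  have h1 : Real.sqrt k3 ≤ r := Real.sqrt_le_iff.2 ⟨r0, hr.le⟩
  have h2 : Real.sqrt k3 ≤ c := Real.sqrt_le_iff.2 ⟨c0, hc.le⟩
  have h3 : Real.sqrt k3 ≤ c' := Real.sqrt_le_iff.2 ⟨c0', hc'.le⟩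
  have h4 : k3 ≤ c * c' := by
    rw [← hs]
    exact mul_le_mul h2 h3 hs0 c0
  have h5 : Real.sqrt k3 * D ≤ r * D := mul_le_mul_of_nonneg_right h1 hD
  have h6 : 0 ≤ (c * c' - k3) * (-F) := mul_nonneg (by linarith) (by linarith)
  linarith

theorem sin_le_sin_sub {x y ps : ℝ} (hx : 0 ≤ x) (h1 : x ≤ y) (h2 : x + y ≤ Real.pi)
    (hp : ps = y) : Real.sin x ≤ Real.sin ps := by
  rw [hp]
  have h3 := Real.sin_sub_sin y x
  have h4 : 0 ≤ Real.sin ((y - x) / 2) :=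
    Real.sin_nonneg_of_nonneg_of_le_pi (by linarith) (by linarith [Real.pi_pos])
  have h5 : 0 ≤ Real.cos ((y + x) / 2) :=
    Real.cos_nonneg_of_neg_pi_div_two_le_of_le (by linarith [Real.pi_pos]) (by linarith)
  have h6 := mul_nonneg h4 h5
  linarith

/-- an edge of a wheel with nonnegative phases -/
theorem edge1 {r c c' ps S : ℝ} (r0 : 0 ≤ r) (hr : k3 < r ^ 2) (c0 : 0 ≤ c)
    (hc : k3 < c ^ 2) (c0' : 0 ≤ c') (hc' : k3 < c' ^ 2) (h0 : 0 ≤ ps)
    (h1 : ps < 11 * Real.pi / 14) (hS : 2 * Real.pi ≤ S) :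
    0 ≤ (r * Real.cos (ps - (Real.pi / 2 + Real.pi * ps / S)) -
      c * c' * Real.cos (Real.pi / 2 + Real.pi * ps / S) -
      Real.cos (Real.pi / 2 - Real.pi * ps / S) * (2 - c ^ 2 - c' ^ 2) / 2) /
      Real.sin (Real.pi / 2 - Real.pi * ps / S) ∧
    (0 < ps → 0 < (r * Real.cos (ps - (Real.pi / 2 + Real.pi * ps / S)) -
      c * c' * Real.cos (Real.pi / 2 + Real.pi * ps / S) -
      Real.cos (Real.pi / 2 - Real.pi * ps / S) * (2 - c ^ 2 - c' ^ 2) / 2) /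
      Real.sin (Real.pi / 2 - Real.pi * ps / S)) := by
  have hp := Real.pi_pos
  have hS0 : 0 < S := by linarith
  obtain ⟨x, hx⟩ : ∃ x : ℝ, x = Real.pi * ps / S := ⟨_, rfl⟩
  rw [← hx]
  have hx0 : 0 ≤ x := by
    rw [hx]
    positivity
  have hx2 : 2 * x ≤ ps := by
    rw [hx, mul_div_assoc', div_le_iff₀ hS0]
    nlinarith
  have e1 : Real.cos (ps - (Real.pi / 2 + x)) = Real.sin (ps - x) := by
    rw [← Real.cos_sub_pi_div_two]
    congr 1
    ring
  have e2 : Real.cos (Real.pi / 2 + x) = -Real.sin x := by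
    rw [add_comm, Real.cos_add_pi_div_two]
  rw [e1, e2, Real.cos_pi_div_two_sub, Real.sin_pi_div_two_sub]
  have hc0 : 0 < Real.cos x := Real.cos_pos_of_mem_Ioo ⟨by linarith, by linarith⟩
  have hs0 : 0 ≤ Real.sin x := Real.sin_nonneg_of_nonneg_of_le_pi hx0 (by linarith)
  have hs1 : Real.sin x ≤ Real.sin (ps - x) :=
    sin_le_sin_sub hx0 (by linarith) (by linarith) rfl
  have key := edge_lb (G := Real.sin x) r0 hr c0 hc c0' hc' (hs0.trans hs1)
    (by linarith : -Real.sin x ≤ 0)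
  have he := ek
  have h2 : 0 ≤ Real.sin x * ((c ^ 2 - k3) + (c' ^ 2 - k3)) / 2 :=
    div_nonneg (mul_nonneg hs0 (by linarith)) (by norm_num)
  have h3 : Real.sqrt k3 * Real.sin x ≤ Real.sqrt k3 * Real.sin (ps - x) :=
    mul_le_mul_of_nonneg_left hs1 (Real.sqrt_nonneg _)
  have h4 : 3884 / 100000 * Real.sin x ≤ (Real.sqrt k3 + 2 * k3 - 1) * Real.sin x :=
    mul_le_mul_of_nonneg_right he.le hs0
  have h5 : 3884 / 100000 * Real.sin x ≤ r * Real.sin (ps - x) - c * c' * -Real.sin x -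
      Real.sin x * (2 - c ^ 2 - c' ^ 2) / 2 := by linarith
  refine ⟨div_nonneg (by linarith) hc0.le, fun h6 => div_pos ?_ hc0⟩
  have h7 : 0 < x := by
    rw [hx]
    positivity
  have h8 : 0 < Real.sin x := Real.sin_pos_of_pos_of_lt_pi h7 (by linarith)
  linarith

theorem e_pos {x u : ℝ} (hx0 : 0 < x) (hx1 : x ≤ 11 * Real.pi / 28) (hu0 : 0 ≤ u)
    (hu1 : u ≤ 5 / 14) :
    0 < Real.sqrt k3 * Real.sin x + k3 * Real.sin ((1 + u) * x) -
      (1 - k3) * Real.sin ((1 + 3 * u / 8) * x) := by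
  have hp := Real.pi_pos
  have hp1 := Real.pi_lt_d4
  obtain ⟨hk1, hk2⟩ := k3_bd
  have hk0 := k3_pos
  have he := ek
  have hs : 0 < Real.sin x := Real.sin_pos_of_pos_of_lt_pi hx0 (by linarith)
  have hc : 0 < Real.cos x := Real.cos_pos_of_mem_Ioo ⟨by linarith, by linarith⟩
  have hxc : x * Real.cos x ≤ Real.sin x := by
    have h1 := Real.lt_tan hx0 (by linarith : x < Real.pi / 2)
    rw [Real.tan_eq_sin_div_cos, lt_div_iff₀ hc] at h1
    exact h1.le
  obtain ⟨w, hw⟩ : ∃ w : ℝ, w = u * x := ⟨_, rfl⟩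
  have hw0 : 0 ≤ w := by
    rw [hw]
    positivity
  have hw1 : w ≤ 4409 / 10000 := by
    rw [hw]
    calc u * x ≤ 5 / 14 * (11 * Real.pi / 28) := mul_le_mul hu1 hx1 hx0.le (by norm_num)
      _ ≤ 4409 / 10000 := by linarith
  have hw2 : w ^ 2 ≤ (4409 / 10000) ^ 2 := pow_le_pow_left₀ hw0 hw1 2
  have h1 : Real.sin ((1 + u) * x) = Real.sin x * Real.cos w + Real.cos x * Real.sin w := by
    rw [← Real.sin_add, hw]
    congr 1
    ring
  have h2 : Real.sin ((1 + 3 * u / 8) * x) =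
      Real.sin x * Real.cos (3 / 8 * w) + Real.cos x * Real.sin (3 / 8 * w) := by
    rw [← Real.sin_add, hw]
    congr 1
    ring
  have h3 : 1 - w ^ 2 / 2 ≤ Real.cos w := Real.one_sub_sq_div_two_le_cos
  have h4 : w - w ^ 3 / 4 ≤ Real.sin w := by
    rcases hw0.eq_or_lt with h5 | h5
    · rw [← h5]
      simp
    · have h6 := Real.sin_gt_sub_cube h5
      have h7 := pow_pos h5 3
      linarith
  have h5 : Real.sin ((1 + 3 * u / 8) * x) ≤ Real.sin x + Real.cos x * (3 / 8 * w) := by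
    rw [h2]
    have h6 : Real.sin x * Real.cos (3 / 8 * w) ≤ Real.sin x * 1 :=
      mul_le_mul_of_nonneg_left (Real.cos_le_one _) hs.le
    have h7 : Real.cos x * Real.sin (3 / 8 * w) ≤ Real.cos x * (3 / 8 * w) :=
      mul_le_mul_of_nonneg_left (Real.sin_le (by positivity)) hc.le
    linarith
  have h6 : Real.sin x * (1 - w ^ 2 / 2) + Real.cos x * (w - w ^ 3 / 4) ≤
      Real.sin ((1 + u) * x) := by
    rw [h1]
    exact add_le_add (mul_le_mul_of_nonneg_left h3 hs.le) (mul_le_mul_of_nonneg_left h4 hc.le)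
  have h7 := mul_le_mul_of_nonneg_left h6 hk0.le
  have h8 := mul_le_mul_of_nonneg_left h5 (by linarith : 0 ≤ 1 - k3)
  -- `cos x * w ≤ u * sin x`
  have h9 : Real.cos x * w ≤ u * Real.sin x := by
    rw [hw]
    calc Real.cos x * (u * x) = u * (x * Real.cos x) := by ring
      _ ≤ u * Real.sin x := mul_le_mul_of_nonneg_left hxc hu0
  obtain ⟨b, hb⟩ : ∃ b : ℝ, b = 3 / 8 * (1 - k3) - k3 + k3 * w ^ 2 / 4 := ⟨_, rfl⟩
  have hkw : k3 * w ^ 2 ≤ 26303 / 100000 * (4409 / 10000) ^ 2 :=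
    mul_le_mul hk2.le hw2 (sq_nonneg _) (by norm_num)
  have hkw0 : 0 ≤ k3 * w ^ 2 := by positivity
  have hb0 : 0 ≤ b := by
    rw [hb]
    linarith
  have hb1 : b ≤ 2614 / 100000 := by
    rw [hb]
    norm_num at hkw ⊢
    linarith
  have h10 : Real.cos x * w * b ≤ u * Real.sin x * b := mul_le_mul_of_nonneg_right h9 hb0
  have h11 : u * Real.sin x * b ≤ Real.sin x * (5 / 14 * (2614 / 100000)) := by
    calc u * Real.sin x * b = Real.sin x * (u * b) := by ring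
      _ ≤ Real.sin x * (5 / 14 * (2614 / 100000)) :=
        mul_le_mul_of_nonneg_left (mul_le_mul hu1 hb1 hb0 (by norm_num)) hs.le
  have h12 : 0 < Real.sin x * ((Real.sqrt k3 + 2 * k3 - 1) - k3 * w ^ 2 / 2 -
      5 / 14 * (2614 / 100000)) := by
    refine mul_pos hs ?_
    norm_num at hkw ⊢
    linarith
  have h13 : Real.cos x * w * b = (1 - k3) * (Real.cos x * (3 / 8 * w)) -
      k3 * (Real.cos x * (w - w ^ 3 / 4)) := by
    rw [hb]
    ring
  have h14 : Real.sin x * ((Real.sqrt k3 + 2 * k3 - 1) - k3 * w ^ 2 / 2 -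
      5 / 14 * (2614 / 100000)) = Real.sqrt k3 * Real.sin x + k3 * (Real.sin x * (1 - w ^ 2 / 2)) -
      (1 - k3) * Real.sin x - Real.sin x * (5 / 14 * (2614 / 100000)) := by
    ring
  linarith

/-- an edge of a wheel with one negative phase `-β`: the edges with positive phases -/
theorem edge2 {r c c' ps be x : ℝ} (r0 : 0 ≤ r) (hr : k3 < r ^ 2) (c0 : 0 ≤ c)
    (hc : k3 < c ^ 2) (c0' : 0 ≤ c') (hc' : k3 < c' ^ 2) (hb0 : 0 < be)
    (hb1 : be < 5 * Real.pi / 14) (hx0 : 3 * Real.pi / 14 + be / 3 ≤ x)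
    (hx1 : x ≤ 11 * Real.pi / 28) (hps : (2 + be / Real.pi) * x ≤ ps)
    (hps1 : ps < 11 * Real.pi / 14) :
    (Real.sin be + Real.sin (3 / 8 * be)) / Real.cos (3 / 8 * be) / 2 *
        ((c ^ 2 - k3) + (c' ^ 2 - k3)) <
      (r * Real.cos (ps - (Real.pi / 2 + (1 + be / Real.pi) * x)) -
        c * c' * Real.cos (Real.pi / 2 + (1 + be / Real.pi) * x) -
        Real.cos (Real.pi / 2 - (1 + 3 * (be / Real.pi) / 8) * x) * (2 - c ^ 2 - c' ^ 2) / 2) /
      Real.sin (Real.pi / 2 - (1 + 3 * (be / Real.pi) / 8) * x) := by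
  have hp := Real.pi_pos
  obtain ⟨u, hu⟩ : ∃ u : ℝ, u = be / Real.pi := ⟨_, rfl⟩
  rw [← hu] at hps ⊢
  have hub : u * Real.pi = be := by
    rw [hu]
    field_simp
  have hu0 : 0 < u := by
    rw [hu]
    positivity
  have hu1 : u ≤ 5 / 14 := by
    rw [hu, div_le_iff₀ hp]
    linarith
  have hx : 0 < x := by linarith
  obtain ⟨X, hX⟩ : ∃ X : ℝ, X = (1 + u) * x := ⟨_, rfl⟩
  obtain ⟨Y, hY⟩ : ∃ Y : ℝ, Y = (1 + 3 * u / 8) * x := ⟨_, rfl⟩
  have hux0 : 0 < u * x := by positivity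
  have hux1 : u * x ≤ 5 / 14 * (11 * Real.pi / 28) := mul_le_mul hu1 hx1 hx.le (by norm_num)
  have hXe : X = x + u * x := by
    rw [hX]
    ring
  have hYe : Y = x + 3 / 8 * (u * x) := by
    rw [hY]
    ring
  have hep := e_pos hx hx1 hu0.le hu1
  rw [← hX, ← hY] at hep ⊢
  have e1 : Real.cos (ps - (Real.pi / 2 + X)) = Real.sin (ps - X) := by
    rw [← Real.cos_sub_pi_div_two]
    congr 1
    ring
  have e2 : Real.cos (Real.pi / 2 + X) = -Real.sin X := by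
    rw [add_comm, Real.cos_add_pi_div_two]
  rw [e1, e2, Real.cos_pi_div_two_sub, Real.sin_pi_div_two_sub]
  have hY0 : 0 < Y := by linarith
  have hY1 : Y < Real.pi / 2 := by linarith
  have hc0 : 0 < Real.cos Y := Real.cos_pos_of_mem_Ioo ⟨by linarith, hY1⟩
  have hsY : 0 < Real.sin Y := Real.sin_pos_of_pos_of_lt_pi hY0 (by linarith)
  have hsX : 0 ≤ Real.sin X :=
    Real.sin_nonneg_of_nonneg_of_le_pi (by linarith) (by linarith)
  have hsx : 0 < Real.sin x := Real.sin_pos_of_pos_of_lt_pi hx (by linarith)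
  have hps2 : 2 * x + u * x ≤ ps := by linarith
  have hs1 : Real.sin x ≤ Real.sin (ps - X) :=
    sin_le_sin_sub hx.le (by linarith) (by linarith) rfl
  have key := edge_lb (G := Real.sin Y) r0 hr c0 hc c0' hc' (hsx.le.trans hs1)
    (by linarith : -Real.sin X ≤ 0)
  have h3 : Real.sqrt k3 * Real.sin x ≤ Real.sqrt k3 * Real.sin (ps - X) :=
    mul_le_mul_of_nonneg_left hs1 (Real.sqrt_nonneg _)
  have h5 : Real.sin Y * ((c ^ 2 - k3) + (c' ^ 2 - k3)) / 2 <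
      r * Real.sin (ps - X) - c * c' * -Real.sin X -
      Real.sin Y * (2 - c ^ 2 - c' ^ 2) / 2 := by linarith
  have hsg : 0 < Real.cos (3 / 8 * be) :=
    Real.cos_pos_of_mem_Ioo ⟨by linarith, by linarith⟩
  -- the constant
  have hL : (Real.sin be + Real.sin (3 / 8 * be)) * Real.cos Y ≤
      Real.sin Y * Real.cos (3 / 8 * be) := by
    have h7 : u * (3 * Real.pi / 14) ≤ u * x :=
      mul_le_mul_of_nonneg_left (by linarith) hu0.le
    have h6 : 3 * Real.pi / 14 ≤ Y - 3 / 8 * be := by linarith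
    have h8 : 1 / 2 ≤ Real.sin (Y - 3 / 8 * be) := by
      rw [← Real.sin_pi_div_six]
      exact Real.sin_le_sin_of_le_of_le_pi_div_two (by linarith) (by linarith) (by linarith)
    have h9 : Real.sin (be + Y) ≤ 1 := Real.sin_le_one _
    have h10 : Real.sin (be - Y) ≤ 0 :=
      Real.sin_nonpos_of_nonpos_of_neg_pi_le (by linarith) (by linarith)
    rw [Real.sin_sub] at h8 h10
    rw [Real.sin_add] at h9
    linarith
  have hQ : 0 < (c ^ 2 - k3) + (c' ^ 2 - k3) := by linarith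
  have h11 : (Real.sin be + Real.sin (3 / 8 * be)) / Real.cos (3 / 8 * be) ≤
      Real.sin Y / Real.cos Y := by
    rw [div_le_div_iff₀ hsg hc0]
    exact hL
  rw [lt_div_iff₀ hc0]
  calc (Real.sin be + Real.sin (3 / 8 * be)) / Real.cos (3 / 8 * be) / 2 *
        ((c ^ 2 - k3) + (c' ^ 2 - k3)) * Real.cos Y
      = (Real.sin be + Real.sin (3 / 8 * be)) / Real.cos (3 / 8 * be) *
        (((c ^ 2 - k3) + (c' ^ 2 - k3)) / 2 * Real.cos Y) := by ring
    _ ≤ Real.sin Y / Real.cos Y * (((c ^ 2 - k3) + (c' ^ 2 - k3)) / 2 * Real.cos Y) := by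
        apply mul_le_mul_of_nonneg_right h11
        positivity
    _ = Real.sin Y * ((c ^ 2 - k3) + (c' ^ 2 - k3)) / 2 := by
        field_simp
    _ < _ := h5

/-- an edge of a wheel with one negative phase `-β`: the edge with the negative phase -/
theorem edge0 {r c c' ps be : ℝ} (hb0 : 0 < be) (hb1 : be < 5 * Real.pi / 14)
    (hps : ps = -be) :
    -((Real.sin be + Real.sin (3 / 8 * be)) / Real.cos (3 / 8 * be) / 2 *
        ((c ^ 2 - k3) + (c' ^ 2 - k3))) ≤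
      (r * Real.cos (ps - (Real.pi / 2 - be)) - c * c' * Real.cos (Real.pi / 2 - be) -
        Real.cos (Real.pi / 2 + 3 / 8 * be) * (2 - c ^ 2 - c' ^ 2) / 2) /
      Real.sin (Real.pi / 2 + 3 / 8 * be) := by
  have hp := Real.pi_pos
  have hk := k3_bd.2
  have e1 : Real.cos (ps - (Real.pi / 2 - be)) = 0 := by
    rw [hps, show -be - (Real.pi / 2 - be) = -(Real.pi / 2) by ring, Real.cos_neg,
      Real.cos_pi_div_two]
  have e2 : Real.cos (Real.pi / 2 + 3 / 8 * be) = -Real.sin (3 / 8 * be) := by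
    rw [add_comm, Real.cos_add_pi_div_two]
  have e3 : Real.sin (Real.pi / 2 + 3 / 8 * be) = Real.cos (3 / 8 * be) := by
    rw [add_comm, Real.sin_add_pi_div_two]
  rw [e1, e2, e3, Real.cos_pi_div_two_sub]
  have hsg : 0 < Real.cos (3 / 8 * be) :=
    Real.cos_pos_of_mem_Ioo ⟨by linarith, by linarith⟩
  have hsb : 0 < Real.sin be := Real.sin_pos_of_pos_of_lt_pi hb0 (by linarith)
  have hcon : 3 / 8 * Real.sin be ≤ Real.sin (3 / 8 * be) := by
    have h1 := strictConcaveOn_sin_Icc.concaveOn.2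
      (show be ∈ Set.Icc 0 Real.pi from ⟨hb0.le, by linarith⟩)
      (show (0 : ℝ) ∈ Set.Icc 0 Real.pi from ⟨le_rfl, hp.le⟩)
      (show (0 : ℝ) ≤ 3 / 8 by norm_num) (show (0 : ℝ) ≤ 5 / 8 by norm_num) (by norm_num)
    simpa using h1
  have h1 : k3 * Real.sin be ≤ (1 - k3) * Real.sin (3 / 8 * be) := by
    have h2 : (1 - k3) * (3 / 8 * Real.sin be) ≤ (1 - k3) * Real.sin (3 / 8 * be) :=
      mul_le_mul_of_nonneg_left hcon (by linarith)
    have h3 : k3 * Real.sin be ≤ (3 / 8 * (1 - k3)) * Real.sin be :=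
      mul_le_mul_of_nonneg_right (by linarith) hsb.le
    linarith
  have h4 : c * c' * Real.sin be ≤ (c ^ 2 + c' ^ 2) / 2 * Real.sin be :=
    mul_le_mul_of_nonneg_right (by nlinarith [sq_nonneg (c - c')]) hsb.le
  rw [le_div_iff₀ hsg]
  have h5 : ∀ P C Q : ℝ, 0 < C → -(P / C / 2 * Q) * C = -(P / 2 * Q) := by
    intro P C Q hC
    field_simp
  rw [h5 _ _ _ hsg]
  linarith

section wh

variable {E : Type} [NormedAddCommGroup E] [InnerProductSpace ℂ E]

theorem ne_of_Ad3 {a b : E} (h : Ad3 a b) : inner ℂ a b ≠ 0 := by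
  intro h1
  unfold Ad3 at h
  rw [h1] at h
  have := k3_pos
  simp at h
  linarith

/-- the second region: the first phase is negative -/
theorem reg2 (hTR : T_TR3) (h a b c d : E) (hh : ‖h‖ = 1) (ha : ‖a‖ = 1) (hb : ‖b‖ = 1)
    (hc : ‖c‖ = 1) (hd : ‖d‖ = 1) (ja : Ad3 h a) (jb : Ad3 h b) (jc : Ad3 h c) (jd : Ad3 h d)
    (jbc : Ad3 b c) (jcd : Ad3 c d) (jda : Ad3 d a) (hneg : ar h a b < 0)
    (hS : 2 * Real.pi ≤ ar h a b + ar h b c + ar h c d + ar h d a) : False := by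
  have hp := Real.pi_pos
  have sy : ∀ x y : E, Ad3 x y → Ad3 y x := by
    intro x y hxy
    unfold Ad3 at hxy ⊢
    rwa [norm_inner_symm]
  have t1 := (abs_lt.1 (hTR E h b c hh hb hc jb jbc (sy _ _ jc))).2
  have t2 := (abs_lt.1 (hTR E h c d hh hc hd jc jcd (sy _ _ jd))).2
  have t3 := (abs_lt.1 (hTR E h d a hh hd ha jd jda (sy _ _ ja))).2
  obtain ⟨be, hbe⟩ : ∃ be : ℝ, be = -ar h a b := ⟨_, rfl⟩
  have hb0 : 0 < be := by linarith
  have hb1 : be < 5 * Real.pi / 14 := by linarith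
  obtain ⟨T, hT⟩ : ∃ T : ℝ, T = ar h b c + ar h c d + ar h d a := ⟨_, rfl⟩
  have hT2 : 2 * Real.pi + be ≤ T := by linarith
  have hT0 : 0 < T := by linarith
  have prod : 11 * Real.pi / 7 * Real.pi ≤ T * (11 * Real.pi / 14 - be / 3) := by
    calc 11 * Real.pi / 7 * Real.pi ≤ (2 * Real.pi + be) * (11 * Real.pi / 14 - be / 3) := by
          nlinarith
      _ ≤ T * (11 * Real.pi / 14 - be / 3) :=
          mul_le_mul_of_nonneg_right hT2 (by linarith)
  have hx : ∀ ps : ℝ, ps < 11 * Real.pi / 14 → T - 11 * Real.pi / 7 ≤ ps →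
      3 * Real.pi / 14 + be / 3 ≤ Real.pi * ps / T ∧ Real.pi * ps / T ≤ 11 * Real.pi / 28 ∧
      (2 + be / Real.pi) * (Real.pi * ps / T) ≤ ps := by
    intro ps h1 h2
    have h0 : 0 ≤ ps := by linarith
    refine ⟨?_, ?_, ?_⟩
    · rw [le_div_iff₀ hT0]
      nlinarith
    · rw [div_le_iff₀ hT0]
      nlinarith
    · have e : (2 + be / Real.pi) * (Real.pi * ps / T) = (2 * Real.pi + be) * ps / T := by
        field_simp
      rw [e, div_le_iff₀ hT0, mul_comm]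
      exact mul_le_mul_of_nonneg_left hT2 h0
  obtain ⟨x1, hx1⟩ : ∃ x : ℝ, x = Real.pi * ar h b c / T := ⟨_, rfl⟩
  obtain ⟨x2, hx2⟩ : ∃ x : ℝ, x = Real.pi * ar h c d / T := ⟨_, rfl⟩
  obtain ⟨x3, hx3⟩ : ∃ x : ℝ, x = Real.pi * ar h d a / T := ⟨_, rfl⟩
  obtain ⟨p1, q1, r1⟩ := hx _ t1 (by linarith)
  obtain ⟨p2, q2, r2⟩ := hx _ t2 (by linarith)
  obtain ⟨p3, q3, r3⟩ := hx _ t3 (by linarith)
  rw [← hx1] at p1 q1 r1
  rw [← hx2] at p2 q2 r2
  rw [← hx3] at p3 q3 r3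
  have hsum : x1 + x2 + x3 = Real.pi := by
    rw [hx1, hx2, hx3, ← add_div, ← add_div, ← mul_add, ← mul_add, ← hT]
    field_simp
  have hub : be / Real.pi * Real.pi = be := by field_simp
  have hu0 : 0 < be / Real.pi := by positivity
  have hu1 : be / Real.pi ≤ 5 / 14 := by
    rw [div_le_iff₀ hp]
    linarith
  have hg : ∀ x : ℝ, 0 < x → x ≤ 11 * Real.pi / 28 →
      0 < Real.pi / 2 - (1 + 3 * (be / Real.pi) / 8) * x := by
    intro x h1 h2
    have h3 : be / Real.pi * x ≤ 5 / 14 * (11 * Real.pi / 28) :=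
      mul_le_mul hu1 h2 h1.le (by norm_num)
    linarith
  have key := wheel4 h a b c d hh ha hb hc hd (ne_of_Ad3 ja) (ne_of_Ad3 jb) (ne_of_Ad3 jc)
    (ne_of_Ad3 jd) (Real.pi / 2 - be) (Real.pi / 2 + (1 + be / Real.pi) * x1)
    (Real.pi / 2 + (1 + be / Real.pi) * x2) (Real.pi / 2 + (1 + be / Real.pi) * x3)
    (Real.pi / 2 + 3 / 8 * be) (Real.pi / 2 - (1 + 3 * (be / Real.pi) / 8) * x1)
    (Real.pi / 2 - (1 + 3 * (be / Real.pi) / 8) * x2)
    (Real.pi / 2 - (1 + 3 * (be / Real.pi) / 8) * x3)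
    (by
      have : (1 + be / Real.pi) * x1 + (1 + be / Real.pi) * x2 + (1 + be / Real.pi) * x3 =
          (1 + be / Real.pi) * Real.pi := by
        rw [← hsum]
        ring
      linarith)
    (by linarith) (hg _ (by linarith) q1) (hg _ (by linarith) q2) (hg _ (by linarith) q3)
    (by
      have : (1 + 3 * (be / Real.pi) / 8) * x1 + (1 + 3 * (be / Real.pi) / 8) * x2 +
          (1 + 3 * (be / Real.pi) / 8) * x3 = (1 + 3 * (be / Real.pi) / 8) * Real.pi := by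
        rw [← hsum]
        ring
      linarith)
  have g0 := edge0 (r := ‖inner ℂ a b‖) (c := ‖inner ℂ h a‖) (c' := ‖inner ℂ h b‖)
    (ps := ar h a b) hb0 hb1 (by linarith)
  have g1 := edge2 (norm_nonneg _) jbc (norm_nonneg _) jb (norm_nonneg _) jc hb0 hb1 p1 q1 r1 t1
  have g2 := edge2 (norm_nonneg _) jcd (norm_nonneg _) jc (norm_nonneg _) jd hb0 hb1 p2 q2 r2 t2
  have g3 := edge2 (norm_nonneg _) jda (norm_nonneg _) jd (norm_nonneg _) ja hb0 hb1 p3 q3 r3 t3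
  obtain ⟨L, hL⟩ : ∃ L : ℝ, L = (Real.sin be + Real.sin (3 / 8 * be)) /
    Real.cos (3 / 8 * be) / 2 := ⟨_, rfl⟩
  rw [← hL] at g0 g1 g2 g3
  have hL0 : 0 ≤ L := by
    rw [hL]
    have h1 : 0 < Real.cos (3 / 8 * be) :=
      Real.cos_pos_of_mem_Ioo ⟨by linarith, by linarith⟩
    have h2 : 0 < Real.sin be := Real.sin_pos_of_pos_of_lt_pi hb0 (by linarith)
    have h3 : 0 < Real.sin (3 / 8 * be) :=
      Real.sin_pos_of_pos_of_lt_pi (by linarith) (by linarith)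
    positivity
  unfold Ad3 at jc jd
  have h1 : 0 ≤ L * (‖inner ℂ h c‖ ^ 2 - k3) := mul_nonneg hL0 (by linarith)
  have h2 : 0 ≤ L * (‖inner ℂ h d‖ ^ 2 - k3) := mul_nonneg hL0 (by linarith)
  linarith

/-- the first region: all phases are nonnegative -/
theorem reg1 (hTR : T_TR3) (h a b c d : E) (hh : ‖h‖ = 1) (ha : ‖a‖ = 1) (hb : ‖b‖ = 1)
    (hc : ‖c‖ = 1) (hd : ‖d‖ = 1) (ja : Ad3 h a) (jb : Ad3 h b) (jc : Ad3 h c) (jd : Ad3 h d)
    (jab : Ad3 a b) (jbc : Ad3 b c) (jcd : Ad3 c d) (jda : Ad3 d a) (n0 : 0 ≤ ar h a b)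
    (n1 : 0 ≤ ar h b c) (n2 : 0 ≤ ar h c d) (n3 : 0 ≤ ar h d a)
    (hS : 2 * Real.pi ≤ ar h a b + ar h b c + ar h c d + ar h d a) : False := by
  have hp := Real.pi_pos
  have sy : ∀ x y : E, Ad3 x y → Ad3 y x := by
    intro x y hxy
    unfold Ad3 at hxy ⊢
    rwa [norm_inner_symm]
  have t0 := (abs_lt.1 (hTR E h a b hh ha hb ja jab (sy _ _ jb))).2
  have t1 := (abs_lt.1 (hTR E h b c hh hb hc jb jbc (sy _ _ jc))).2
  have t2 := (abs_lt.1 (hTR E h c d hh hc hd jc jcd (sy _ _ jd))).2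
  have t3 := (abs_lt.1 (hTR E h d a hh hd ha jd jda (sy _ _ ja))).2
  obtain ⟨S, hSd⟩ : ∃ S : ℝ, S = ar h a b + ar h b c + ar h c d + ar h d a := ⟨_, rfl⟩
  rw [← hSd] at hS
  have hS0 : 0 < S := by linarith
  have hsum : Real.pi * ar h a b / S + Real.pi * ar h b c / S + Real.pi * ar h c d / S +
      Real.pi * ar h d a / S = Real.pi := by
    rw [← add_div, ← add_div, ← add_div, ← mul_add, ← mul_add, ← mul_add, ← hSd]
    field_simp
  have hg : ∀ ps : ℝ, 0 ≤ ps → ps < 11 * Real.pi / 14 → 0 < Real.pi / 2 - Real.pi * ps / S := by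
    intro ps h1 h2
    have h3 : 2 * (Real.pi * ps / S) ≤ ps := by
      rw [mul_div_assoc', div_le_iff₀ hS0]
      nlinarith
    linarith
  have key := wheel4 h a b c d hh ha hb hc hd (ne_of_Ad3 ja) (ne_of_Ad3 jb) (ne_of_Ad3 jc)
    (ne_of_Ad3 jd) (Real.pi / 2 + Real.pi * ar h a b / S) (Real.pi / 2 + Real.pi * ar h b c / S)
    (Real.pi / 2 + Real.pi * ar h c d / S) (Real.pi / 2 + Real.pi * ar h d a / S)
    (Real.pi / 2 - Real.pi * ar h a b / S) (Real.pi / 2 - Real.pi * ar h b c / S)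
    (Real.pi / 2 - Real.pi * ar h c d / S) (Real.pi / 2 - Real.pi * ar h d a / S)
    (by linarith) (hg _ n0 t0) (hg _ n1 t1) (hg _ n2 t2) (hg _ n3 t3) (by linarith)
  have g0 := edge1 (norm_nonneg _) jab (norm_nonneg _) ja (norm_nonneg _) jb n0 t0 hS
  have g1 := edge1 (norm_nonneg _) jbc (norm_nonneg _) jb (norm_nonneg _) jc n1 t1 hS
  have g2 := edge1 (norm_nonneg _) jcd (norm_nonneg _) jc (norm_nonneg _) jd n2 t2 hS
  have g3 := edge1 (norm_nonneg _) jda (norm_nonneg _) jd (norm_nonneg _) ja n3 t3 hS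
  rcases n0.eq_or_lt with h1 | h1
  · rcases n1.eq_or_lt with h2 | h2
    · linarith
    · have := g1.2 h2
      linarith [g0.1, g2.1, g3.1]
  · have := g0.2 h1
    linarith [g1.1, g2.1, g3.1]

end wh

theorem pf_W4A (hTR : T_TR3) : T_W4A := by
  intro E _ _ h a b c d hh ha hb hc hd ja jb jc jd jab jbc jcd jda
  by_contra hcon
  have hS : 2 * Real.pi ≤ ar h a b + ar h b c + ar h c d + ar h d a := not_lt.1 hcon
  rcases lt_or_ge (ar h a b) 0 with n0 | n0
  · exact reg2 hTR h a b c d hh ha hb hc hd ja jb jc jd jbc jcd jda n0 hS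
  rcases lt_or_ge (ar h b c) 0 with n1 | n1
  · exact reg2 hTR h b c d a hh hb hc hd ha jb jc jd ja jcd jda jab n1 (by linarith)
  rcases lt_or_ge (ar h c d) 0 with n2 | n2
  · exact reg2 hTR h c d a b hh hc hd ha hb jc jd ja jb jda jab jbc n2 (by linarith)
  rcases lt_or_ge (ar h d a) 0 with n3 | n3
  · exact reg2 hTR h d a b c hh hd ha hb hc jd ja jb jc jab jbc jcd n3 (by linarith)
  exact reg1 hTR h a b c d hh ha hb hc hd ja jb jc jd jab jbc jcd jda n0 n1 n2 n3 hS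

end

end Pool.Agent.H86.FRW
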